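import Mathlib
import Pool.Agent.Lib.Sieve.PairSieve
import Pool.Agent.Lib.MP_5d7b92_nt.Assembly
import Pool.Agent.Lib.MP_5d7b92_nt.Count
import Pool.Agent.Lib.MP_7b7e48_nt.Romanoff
import Pool.Agent.Lib.MP_7b7e48_nt.SquareMean

/-!
# Second moment for sums of two elements of a relatively dense set of primes
-/

open Finset Filter

namespace Pool.Agent.Lib.MP_61161c_nt

open Pool.Agent.Lib.MP_5d7b92_nt (paley_zygmund rep sum_rep pairCount sum_rep_sq
  primeCounting_ge primeCounting_le)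
open Pool.Agent.Lib.MP_7b7e48_nt (diffSum oddPrimes diffSum_oddPrimes_le)

/-- the elements of `S` in `(a, b]`. -/
noncomputable def piece (S : Set ℕ) (a b : ℕ) : Finset ℕ :=
  open Classical in (Finset.Ioc a b).filter (fun n => n ∈ S)

theorem mem_piece {S : Set ℕ} {a b n : ℕ} : n ∈ piece S a b ↔ (a < n ∧ n ≤ b) ∧ n ∈ S := by
  classical
  unfold piece
  rw [Finset.mem_filter, Finset.mem_Ioc]

theorem card_piece_le (S : Set ℕ) (hS : ∀ p ∈ S, p.Prime) (a b : ℕ) :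
    (piece S a b).card ≤ Nat.primeCounting b := by
  rw [← Nat.primesLE_card_eq_primeCounting b]
  apply Finset.card_le_card
  intro p hp
  rw [mem_piece] at hp
  rw [Nat.mem_primesLE]
  exact ⟨hp.1.2, hS p hp.2⟩

theorem ncard_le_card_piece (S : Set ℕ) (hS : ∀ p ∈ S, p.Prime) (a b : ℕ) :
    (S ∩ Set.Icc 1 b).ncard ≤ (piece S a b).card + Nat.primeCounting a := by
  rw [← Nat.primesLE_card_eq_primeCounting a]
  refine le_trans ?_ (Finset.card_union_le _ _)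
  rw [← Set.ncard_coe_finset]
  apply Set.ncard_le_ncard _ (Finset.finite_toSet _)
  intro p hp
  rw [Finset.coe_union, Set.mem_union, Finset.mem_coe, Finset.mem_coe, mem_piece, Nat.mem_primesLE]
  rcases le_or_gt p a with h | h
  · exact Or.inr ⟨h, hS p hp.1⟩
  · exact Or.inl ⟨⟨h, hp.2.2⟩, hp.1⟩

theorem sqrt_le_div (D : ℕ) (hD : 1 ≤ D) (X : ℕ) (hX : 4 * D ^ 2 ≤ X) :
    √(X : ℝ) ≤ ((X / D : ℕ) : ℝ) := by
  have hDr : (1 : ℝ) ≤ D := by exact_mod_cast hD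
  have hXr : (4 : ℝ) * D ^ 2 ≤ X := by exact_mod_cast hX
  have h1 : 2 * (D : ℝ) ≤ √(X : ℝ) := by
    apply Real.le_sqrt_of_sq_le
    nlinarith
  have h2 : √(X : ℝ) * √(X : ℝ) = X := Real.mul_self_sqrt (by positivity)
  have h3 : (X : ℝ) < D * (((X / D : ℕ) : ℝ) + 1) := by
    exact_mod_cast Nat.lt_mul_div_succ X (by omega : 0 < D)
  by_contra hcon
  push Not at hcon
  -- X < D (√X + 1) ≤ ...
  have h4 : (X : ℝ) < D * (√(X : ℝ) + 1) := by
    refine h3.trans ?_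
    have : ((X / D : ℕ) : ℝ) + 1 < √(X : ℝ) + 1 := by linarith
    nlinarith
  nlinarith

theorem log_div_ge (D : ℕ) (hD : 1 ≤ D) (X : ℕ) (hX : 4 * D ^ 2 ≤ X) :
    Real.log X / 2 ≤ Real.log ((X / D : ℕ) : ℝ) := by
  have h := sqrt_le_div D hD X hX
  have hX0 : 0 < X := by
    have : 0 < 4 * D ^ 2 := by positivity
    omega
  have hXr : (0 : ℝ) < X := by exact_mod_cast hX0
  have h5 : Real.log (√(X : ℝ)) ≤ Real.log ((X / D : ℕ) : ℝ) :=
    Real.log_le_log (Real.sqrt_pos.mpr hXr) h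
  rwa [Real.log_sqrt hXr.le] at h5

theorem diffSum_mono {Q Q' : Finset ℕ} (h : Q ⊆ Q') : diffSum Q ≤ diffSum Q' := by
  unfold diffSum
  calc ∑ q ∈ Q, ∑ q' ∈ Q.filter (fun q' => q < q'), ((q' - q : ℕ) : ℝ) / (Nat.totient (q' - q) : ℝ)
      ≤ ∑ q ∈ Q, ∑ q' ∈ Q'.filter (fun q' => q < q'),
          ((q' - q : ℕ) : ℝ) / (Nat.totient (q' - q) : ℝ) := by
        refine Finset.sum_le_sum fun q _ => ?_
        refine Finset.sum_le_sum_of_subset_of_nonneg (Finset.filter_subset_filter _ h) ?_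
        intro i _ _
        positivity
    _ ≤ _ := by
        refine Finset.sum_le_sum_of_subset_of_nonneg h ?_
        intro i _ _
        refine Finset.sum_nonneg fun j _ => by positivity

/-- Relatively dense sets of primes have many elements in `(x / D, x]`. -/
theorem dense_piece (δ : ℝ) (hδ : 0 < δ) : ∃ D : ℕ, 2 ≤ D ∧ ∀ S : Set ℕ, (∀ p ∈ S, p.Prime) →
    (∀ᶠ x : ℕ in atTop, δ * x / Real.log x ≤ ((S ∩ Set.Icc 1 x).ncard : ℝ)) →
    ∃ X0 : ℕ, ∀ x : ℕ, X0 ≤ x → δ / 2 * x / Real.log x ≤ ((piece S (x / D) x).card : ℝ) := by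
  obtain ⟨D, hD⟩ := exists_nat_ge (40 / δ + 2)
  have hD2r : (2 : ℝ) ≤ D := by
    have : 0 < 40 / δ := by positivity
    linarith
  have hD2 : 2 ≤ D := by exact_mod_cast hD2r
  refine ⟨D, hD2, fun S hS hdens => ?_⟩
  obtain ⟨X1, hX1⟩ := eventually_atTop.mp hdens
  refine ⟨max X1 (4 * D ^ 2), fun x hx => ?_⟩
  have hx1 : X1 ≤ x := (le_max_left _ _).trans hx
  have hx2 : 4 * D ^ 2 ≤ x := (le_max_right _ _).trans hx
  have h1 := hX1 x hx1
  have h2 : ((S ∩ Set.Icc 1 x).ncard : ℝ) ≤ ((piece S (x / D) x).card : ℝ)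
      + (Nat.primeCounting (x / D) : ℝ) := by
    exact_mod_cast ncard_le_card_piece S hS (x / D) x
  have hxD : 2 ≤ x / D := by
    rw [Nat.le_div_iff_mul_le (by omega)]
    nlinarith
  have h3 := primeCounting_le (x / D) hxD
  have hxr : (16 : ℝ) ≤ x := by
    have : 16 ≤ x := by nlinarith
    exact_mod_cast this
  have hL : 0 < Real.log x := Real.log_pos (by linarith)
  have hlog := log_div_ge D (by omega) x hx2
  have hlogpos : 0 < Real.log ((x / D : ℕ) : ℝ) := by linarith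
  have hdiv : ((x / D : ℕ) : ℝ) ≤ x / D := Nat.cast_div_le
  have hDδ : 40 ≤ δ * D := by
    have : 40 / δ ≤ D := by linarith
    rwa [div_le_iff₀ hδ, mul_comm] at this
  have h4 : (5 : ℝ) * ((x / D : ℕ) : ℝ) / Real.log ((x / D : ℕ) : ℝ) ≤ δ / 2 * x / Real.log x := by
    rw [div_le_div_iff₀ hlogpos hL]
    have hD0 : (0 : ℝ) < D := by linarith
    have e1 : (5 : ℝ) * ((x / D : ℕ) : ℝ) * Real.log x ≤ 5 * (x / D) * Real.log x := by gcongr
    have e2 : 5 * ((x : ℝ) / D) * Real.log x ≤ (δ / 2 * x) * (Real.log x / 2) := by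
      have : 5 * ((x : ℝ) / D) ≤ δ / 4 * x := by
        rw [mul_div_assoc', div_le_iff₀ hD0]
        nlinarith
      nlinarith
    have e3 : (δ / 2 * x) * (Real.log x / 2) ≤ δ / 2 * x * Real.log ((x / D : ℕ) : ℝ) := by
      gcongr
    linarith
  have h5 : δ * x / Real.log x = δ / 2 * x / Real.log x + δ / 2 * x / Real.log x := by ring
  linarith

theorem rep_eq (Q P : Finset ℕ) (n : ℕ) :
    rep Q P n = (Q.filter (fun q => q ≤ 2 * n ∧ 2 * n - q ∈ P)).card := by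
  unfold rep
  refine Finset.card_bij' (fun x _ => x.1) (fun q _ => (q, 2 * n - q)) ?_ ?_ ?_ ?_
  · intro x hx
    have h := Finset.mem_filter.mp hx
    have h1 := Finset.mem_product.mp h.1
    have h2 : 2 * n - x.1 = x.2 := by omega
    refine Finset.mem_filter.mpr ⟨h1.1, by omega, ?_⟩
    rw [h2]; exact h1.2
  · intro q hq
    have h := Finset.mem_filter.mp hq
    refine Finset.mem_filter.mpr ⟨Finset.mem_product.mpr ⟨h.1, h.2.2⟩, ?_⟩
    show q + (2 * n - q) = 2 * n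
    omega
  · intro x hx
    have h := (Finset.mem_filter.mp hx).2
    ext
    · rfl
    · show 2 * n - x.1 = x.2
      omega
  · intro q _
    rfl

/-- Many `n` have many representations `2 n = q + p` with both primes in `S`. -/
theorem good_of_dense (δ : ℝ) (hδ : 0 < δ) : ∃ c : ℝ, 0 < c ∧ ∃ D : ℕ, 2 ≤ D ∧
    ∀ S : Set ℕ, (∀ p ∈ S, p.Prime) →
    (∀ᶠ x : ℕ in atTop, δ * x / Real.log x ≤ ((S ∩ Set.Icc 1 x).ncard : ℝ)) →
    ∃ X0 : ℕ, ∀ X : ℕ, X0 ≤ X →
      c * X ≤ (((Finset.Icc 1 X).filter (fun n => c * X / (Real.log X) ^ 2 ≤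
        (((piece S (X / D / D) (X / D)).filter
          (fun q => q ≤ 2 * n ∧ 2 * n - q ∈ piece S (X / D) X)).card : ℝ))).card : ℝ) := by
  classical
  obtain ⟨D, hD2, hDD⟩ := dense_piece δ hδ
  obtain ⟨CA, hCA, hA⟩ := Pool.Agent.Lib.Sieve.pair_sieve
  obtain ⟨K, hK1, hK⟩ := diffSum_oddPrimes_le
  set C3 : ℝ := 100 + 50 * CA * K with hC3
  have hC30 : 0 < C3 := by positivity
  have hDr : (2 : ℝ) ≤ D := by exact_mod_cast hD2
  set c : ℝ := min (δ ^ 2 / (16 * D)) (δ ^ 4 / (256 * D ^ 2 * C3)) with hc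
  have hc0 : 0 < c := by positivity
  refine ⟨c, hc0, D, hD2, fun S hS hdens => ?_⟩
  obtain ⟨X1, hX1⟩ := hDD S hS hdens
  refine ⟨max (D * (X1 + 1)) (64 * D ^ 4), fun X hX => ?_⟩
  have hXa : D * (X1 + 1) ≤ X := (le_max_left _ _).trans hX
  have hXb : 64 * D ^ 4 ≤ X := (le_max_right _ _).trans hX
  set Y := X / D with hY
  have hYX1 : X1 ≤ Y := by
    rw [hY, Nat.le_div_iff_mul_le (by omega)]
    nlinarith
  have hYX : Y ≤ X := Nat.div_le_self _ _
  have hYbig : 4 * D ^ 2 ≤ Y := by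
    rw [hY, Nat.le_div_iff_mul_le (by omega)]
    have : 1 ≤ D := by omega
    nlinarith [Nat.pow_le_pow_right this (show 3 ≤ 4 by norm_num)]
  have hX4 : 4 * D ^ 2 ≤ X := hYbig.trans hYX
  have hY16 : 16 ≤ Y := by nlinarith
  have hX16 : 16 ≤ X := by omega
  set Q := piece S (Y / D) Y with hQ
  set P := piece S Y X with hP
  have hPlow : δ / 2 * X / Real.log X ≤ (P.card : ℝ) := hX1 X (hYX1.trans hYX)
  have hQlow0 : δ / 2 * Y / Real.log Y ≤ (Q.card : ℝ) := hX1 Y hYX1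
  have hXr : (16 : ℝ) ≤ X := by exact_mod_cast hX16
  have hYr : (16 : ℝ) ≤ Y := by exact_mod_cast hY16
  have hX0 : (0 : ℝ) < X := by linarith
  set L := Real.log (X : ℝ) with hL
  have hL0 : 0 < L := Real.log_pos (by linarith)
  have hLY0 : 0 < Real.log (Y : ℝ) := Real.log_pos (by linarith)
  have hLYX : Real.log (Y : ℝ) ≤ L := Real.log_le_log (by linarith) (by exact_mod_cast hYX)
  -- Y ≥ X / (2 D)
  have hYge : (X : ℝ) / (2 * D) ≤ Y := by
    have h1 : (X : ℝ) < D * ((Y : ℝ) + 1) := by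
      exact_mod_cast Nat.lt_mul_div_succ X (by omega : 0 < D)
    rw [div_le_iff₀ (by positivity)]
    nlinarith
  have hQlow : δ / (4 * D) * X / L ≤ (Q.card : ℝ) := by
    refine le_trans ?_ hQlow0
    calc δ / (4 * D) * X / L = δ / 2 * (X / (2 * D)) / L := by field_simp; ring
      _ ≤ δ / 2 * Y / L := by gcongr
      _ ≤ δ / 2 * Y / Real.log Y := by gcongr
  have hPup : (P.card : ℝ) ≤ 5 * X / L := by
    have h1 := primeCounting_le X (by omega)
    have h2 : (P.card : ℝ) ≤ (Nat.primeCounting X : ℝ) := by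
      exact_mod_cast card_piece_le S hS Y X
    linarith
  have hpiY : (Nat.primeCounting Y : ℝ) ≤ 5 * X / L := by
    have h1 := primeCounting_le X (by omega)
    have h2 : (Nat.primeCounting Y : ℝ) ≤ (Nat.primeCounting X : ℝ) := by
      exact_mod_cast Nat.monotone_primeCounting hYX
    linarith
  have hQup : (Q.card : ℝ) ≤ 5 * X / L := by
    have h2 : (Q.card : ℝ) ≤ (Nat.primeCounting Y : ℝ) := by
      exact_mod_cast card_piece_le S hS (Y / D) Y
    linarith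
  have hPmem : ∀ p ∈ P, Y < p ∧ p ≤ X ∧ p.Prime := by
    intro p hp
    rw [hP, mem_piece] at hp
    exact ⟨hp.1.1, hp.1.2, hS p hp.2⟩
  have hYD : 3 ≤ Y / D := by
    rw [Nat.le_div_iff_mul_le (by omega)]
    nlinarith
  have hQmem : ∀ q ∈ Q, Y / D < q ∧ q ≤ Y ∧ q.Prime := by
    intro q hq
    rw [hQ, mem_piece] at hq
    exact ⟨hq.1.1, hq.1.2, hS q hq.2⟩
  have hodd : ∀ p : ℕ, p.Prime → 3 ≤ p → p % 2 = 1 := fun p hp h2 =>
    (hp.eq_two_or_odd).resolve_left (by omega)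
  have hQP : ∀ q ∈ Q, ∀ p ∈ P, ∃ n, n ∈ Finset.Icc 1 X ∧ q + p = 2 * n := by
    intro q hq p hp
    obtain ⟨h1, h2, h3⟩ := hQmem q hq
    obtain ⟨h4, h5, h6⟩ := hPmem p hp
    have h7 := hodd q h3 (by omega)
    have h8 := hodd p h6 (by omega)
    refine ⟨(q + p) / 2, ?_, by omega⟩
    rw [Finset.mem_Icc]
    omega
  have hS1 : ∑ n ∈ Finset.Icc 1 X, (rep Q P n : ℝ) = (Q.card : ℝ) * P.card := by
    exact_mod_cast sum_rep Q P X hQP
  have hpair : ∀ d : ℕ, 1 ≤ d → (pairCount P d : ℝ)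
      ≤ CA * ((d : ℝ) / (Nat.totient d : ℝ)) * (X : ℝ) / L ^ 2 := by
    intro d hd
    refine le_trans ?_ (hA X d (by omega) hd)
    have : pairCount P d ≤ ((Finset.Icc 1 X).filter (fun p => p.Prime ∧ (p + d).Prime)).card := by
      unfold pairCount
      apply Finset.card_le_card
      intro p hp
      have hp := Finset.mem_filter.mp hp
      have hp1 := hPmem p hp.1
      have hp2 := hPmem _ hp.2
      simp only [Finset.mem_filter, Finset.mem_Icc]
      exact ⟨⟨hp1.2.2.one_lt.le, hp1.2.1⟩, hp1.2.2, hp2.2.2⟩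
    exact_mod_cast this
  have hdiff : diffSum Q ≤ K * (5 * X / L) ^ 2 := by
    have h1 : Q ⊆ oddPrimes Y := by
      intro q hq
      obtain ⟨h1, h2, h3⟩ := hQmem q hq
      unfold oddPrimes
      rw [Finset.mem_filter, Finset.mem_Icc]
      exact ⟨⟨by omega, h2⟩, h3⟩
    have h2 : ((oddPrimes Y).card : ℝ) ≤ (Nat.primeCounting Y : ℝ) := by
      have : (oddPrimes Y).card ≤ Nat.primeCounting Y := by
        rw [← Nat.primesLE_card_eq_primeCounting Y]
        apply Finset.card_le_card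
        intro p hp
        unfold oddPrimes at hp
        have h3 := Finset.mem_filter.mp hp
        have h4 := Finset.mem_Icc.mp h3.1
        rw [Nat.mem_primesLE]
        exact ⟨h4.2, h3.2⟩
      exact_mod_cast this
    calc diffSum Q ≤ diffSum (oddPrimes Y) := diffSum_mono h1
      _ ≤ K * ((oddPrimes Y).card : ℝ) ^ 2 := hK Y (by omega)
      _ ≤ K * (5 * X / L) ^ 2 := by
          have h3 := h2.trans hpiY
          gcongr
  have hLX : L ^ 2 ≤ 4 * X := by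
    have h1 : Real.log (√(X : ℝ)) ≤ √(X : ℝ) - 1 :=
      Real.log_le_sub_one_of_pos (Real.sqrt_pos.mpr hX0)
    rw [Real.log_sqrt hX0.le] at h1
    have h2 : L ≤ 2 * √(X : ℝ) := by
      rw [hL]; linarith
    have h3 : (√(X : ℝ)) ^ 2 = (X : ℝ) := Real.sq_sqrt hX0.le
    have h4 : (0 : ℝ) ≤ √(X : ℝ) := Real.sqrt_nonneg _
    nlinarith
  have hS2 : ∑ n ∈ Finset.Icc 1 X, (rep Q P n : ℝ) ^ 2 ≤ C3 * X ^ 3 / L ^ 4 := by
    have h1 : ∑ n ∈ Finset.Icc 1 X, (rep Q P n : ℝ) ^ 2 ≤ (Q.card : ℝ) * P.card +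
      2 * ∑ q ∈ Q, ∑ q' ∈ Q.filter (fun q' => q < q'), (pairCount P (q' - q) : ℝ) := by
      exact_mod_cast sum_rep_sq Q P X hQP
    have h2 : ∑ q ∈ Q, ∑ q' ∈ Q.filter (fun q' => q < q'), (pairCount P (q' - q) : ℝ)
        ≤ CA * X / L ^ 2 * diffSum Q := by
      unfold diffSum
      rw [Finset.mul_sum]
      refine Finset.sum_le_sum fun q _ => ?_
      rw [Finset.mul_sum]
      refine Finset.sum_le_sum fun q' hq' => ?_
      have := (Finset.mem_filter.mp hq').2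
      have h3 := hpair (q' - q) (by omega)
      calc (pairCount P (q' - q) : ℝ) ≤ _ := h3
        _ = _ := by ring
    have h3 : (Q.card : ℝ) * P.card ≤ 100 * X ^ 3 / L ^ 4 := by
      calc (Q.card : ℝ) * P.card ≤ (5 * X / L) * (5 * X / L) := by gcongr
        _ = 25 * X ^ 2 * L ^ 2 / L ^ 4 := by field_simp; ring
        _ ≤ 25 * X ^ 2 * (4 * X) / L ^ 4 := by gcongr
        _ = 100 * X ^ 3 / L ^ 4 := by ring
    have h4 : 2 * (CA * X / L ^ 2 * diffSum Q) ≤ 50 * CA * K * X ^ 3 / L ^ 4 := by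
      calc 2 * (CA * X / L ^ 2 * diffSum Q) ≤ 2 * (CA * X / L ^ 2 * (K * (5 * X / L) ^ 2)) := by
            gcongr
        _ = 50 * CA * K * X ^ 3 / L ^ 4 := by field_simp; ring
    calc ∑ n ∈ Finset.Icc 1 X, (rep Q P n : ℝ) ^ 2
        ≤ 100 * X ^ 3 / L ^ 4 + 50 * CA * K * X ^ 3 / L ^ 4 := by
          refine h1.trans (add_le_add h3 ?_)
          exact (mul_le_mul_of_nonneg_left h2 (by norm_num)).trans h4
      _ = C3 * X ^ 3 / L ^ 4 := by rw [hC3]; ring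
  have hprod : δ ^ 2 / (8 * D) * X ^ 2 / L ^ 2 ≤ (Q.card : ℝ) * P.card := by
    calc δ ^ 2 / (8 * D) * X ^ 2 / L ^ 2 = (δ / (4 * D) * X / L) * (δ / 2 * X / L) := by
          field_simp; ring
      _ ≤ (Q.card : ℝ) * P.card := by gcongr
  set θ : ℝ := c * X / L ^ 2 with hθ
  have hθ2 : 2 * (θ * ((Finset.Icc 1 X).card : ℝ)) ≤ ∑ n ∈ Finset.Icc 1 X, (rep Q P n : ℝ) := by
    rw [hS1, Nat.card_Icc]
    have hX' : ((X + 1 - 1 : ℕ) : ℝ) = X := by simp
    rw [hX', hθ]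
    have hc4 : c ≤ δ ^ 2 / (16 * D) := min_le_left _ _
    calc 2 * (c * X / L ^ 2 * X) = (2 * c) * (X ^ 2 / L ^ 2) := by ring
      _ ≤ (2 * (δ ^ 2 / (16 * D))) * (X ^ 2 / L ^ 2) := by gcongr
      _ = δ ^ 2 / (8 * D) * X ^ 2 / L ^ 2 := by field_simp; ring
      _ ≤ _ := hprod
  have hPZ := paley_zygmund (Finset.Icc 1 X) (fun n => (rep Q P n : ℝ))
    (fun n _ => Nat.cast_nonneg _) θ hθ2
  rw [hS1] at hPZ
  set N : ℝ := (((Finset.Icc 1 X).filter (fun n => θ ≤ (rep Q P n : ℝ))).card : ℝ) with hN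
  have hN0 : 0 ≤ N := Nat.cast_nonneg _
  have hgoal : c * X ≤ N := by
    have h1 : (δ ^ 2 / (8 * D) * X ^ 2 / L ^ 2) ^ 2 ≤ 4 * N * (C3 * X ^ 3 / L ^ 4) := by
      calc (δ ^ 2 / (8 * D) * X ^ 2 / L ^ 2) ^ 2 ≤ ((Q.card : ℝ) * P.card) ^ 2 := by gcongr
        _ ≤ 4 * N * ∑ n ∈ Finset.Icc 1 X, (rep Q P n : ℝ) ^ 2 := hPZ
        _ ≤ 4 * N * (C3 * X ^ 3 / L ^ 4) := by gcongr
    have h2 : c ≤ δ ^ 4 / (256 * D ^ 2 * C3) := min_le_right _ _
    have hL4 : 0 < L ^ 4 := by positivity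
    have h3 : δ ^ 4 / (64 * D ^ 2) * X ^ 4 ≤ 4 * N * (C3 * X ^ 3) := by
      have e1 : (δ ^ 2 / (8 * D) * X ^ 2 / L ^ 2) ^ 2 = (δ ^ 4 / (64 * D ^ 2) * X ^ 4) / L ^ 4 := by
        field_simp; ring
      have e2 : 4 * N * (C3 * X ^ 3 / L ^ 4) = (4 * N * (C3 * X ^ 3)) / L ^ 4 := by ring
      rw [e1, e2] at h1
      exact (div_le_div_iff_of_pos_right hL4).mp h1
    have h4 : δ ^ 4 / (256 * D ^ 2 * C3) * X ≤ N := by
      have hX3 : (0 : ℝ) < 4 * C3 * X ^ 3 := by positivity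
      have : (δ ^ 4 / (256 * D ^ 2 * C3) * X) * (4 * C3 * X ^ 3) ≤ N * (4 * C3 * X ^ 3) := by
        calc (δ ^ 4 / (256 * D ^ 2 * C3) * X) * (4 * C3 * X ^ 3)
            = δ ^ 4 / (64 * D ^ 2) * X ^ 4 := by field_simp; ring
          _ ≤ 4 * N * (C3 * X ^ 3) := h3
          _ = N * (4 * C3 * X ^ 3) := by ring
      exact le_of_mul_le_mul_right this hX3
    calc c * X ≤ δ ^ 4 / (256 * D ^ 2 * C3) * X := by gcongr
      _ ≤ N := h4
  refine hgoal.trans (le_of_eq ?_)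
  rw [hN]
  congr 2
  refine Finset.filter_congr fun n _ => ?_
  rw [rep_eq]

end Pool.Agent.Lib.MP_61161c_nt
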