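import Mathlib

/-!
# Counting the union of dyadic pieces
-/

open Finset

namespace Pool.Agent.Lib.MP_61161c_nt

theorem glue_count (F : ℕ → Finset ℕ) (E : ℕ) (C₁ β : ℝ) (hC : 0 ≤ C₁) (hβ : 0 < β)
    (hE : ∀ k, ∀ a ∈ F k, 2 ^ k < E * a)
    (hF : ∀ k, ((F k).card : ℝ) ≤ C₁ * ((2 ^ k : ℕ) : ℝ) ^ β) (x : ℕ) :
    (((⋃ k, (F k : Set ℕ)) ∩ Set.Icc 1 x).ncard : ℝ) ≤
      C₁ * ((2 : ℝ) ^ β / ((2 : ℝ) ^ β - 1)) * (E : ℝ) ^ β * (x : ℝ) ^ β := by
  classical
  set b : ℝ := (2 : ℝ) ^ β with hb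
  have hb1 : 1 < b := Real.one_lt_rpow (by norm_num) hβ
  rcases Nat.eq_zero_or_pos (E * x) with h0 | hpos
  · -- the set is empty
    have : ((⋃ k, (F k : Set ℕ)) ∩ Set.Icc 1 x) = ∅ := by
      rw [Set.eq_empty_iff_forall_notMem]
      rintro a ⟨ha, ha2⟩
      rw [Set.mem_iUnion] at ha
      obtain ⟨k, hk⟩ := ha
      have h1 := hE k a hk
      have h2 : E * a ≤ E * x := Nat.mul_le_mul_left _ ha2.2
      rw [h0] at h2
      have h5 : 0 < 2 ^ k := by positivity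
      omega
    rw [this, Set.ncard_empty]
    have : 0 < b - 1 := by linarith
    simp only [Nat.cast_zero]
    positivity
  set N := Nat.log 2 (E * x) with hN
  have hsub : ((⋃ k, (F k : Set ℕ)) ∩ Set.Icc 1 x) ⊆
      (((Finset.range (N + 1)).biUnion F : Finset ℕ) : Set ℕ) := by
    rintro a ⟨ha, ha2⟩
    rw [Set.mem_iUnion] at ha
    obtain ⟨k, hk⟩ := ha
    rw [Finset.mem_coe] at hk ⊢
    rw [Finset.mem_biUnion]
    refine ⟨k, ?_, hk⟩
    rw [Finset.mem_range]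
    have h1 := hE k a hk
    have h2 : E * a ≤ E * x := Nat.mul_le_mul_left _ ha2.2
    have h3 : 2 ^ k ≤ E * x := h1.le.trans h2
    have h4 : k ≤ Nat.log 2 (E * x) := Nat.le_log_of_pow_le (by norm_num) h3
    omega
  have h1 : (((⋃ k, (F k : Set ℕ)) ∩ Set.Icc 1 x).ncard : ℝ) ≤
      (((Finset.range (N + 1)).biUnion F).card : ℝ) := by
    have := Set.ncard_le_ncard hsub (Finset.finite_toSet _)
    rw [Set.ncard_coe_finset] at this
    exact_mod_cast this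
  have h2 : (((Finset.range (N + 1)).biUnion F).card : ℝ) ≤
      ∑ k ∈ Finset.range (N + 1), C₁ * b ^ k := by
    have h3 : (((Finset.range (N + 1)).biUnion F).card : ℝ) ≤
        ∑ k ∈ Finset.range (N + 1), ((F k).card : ℝ) := by
      exact_mod_cast Finset.card_biUnion_le
    refine h3.trans (Finset.sum_le_sum fun k _ => ?_)
    refine (hF k).trans (le_of_eq ?_)
    congr 1
    rw [hb, ← Real.rpow_natCast ((2 : ℝ) ^ β) k, ← Real.rpow_mul (by norm_num)]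
    push_cast
    rw [← Real.rpow_natCast (2 : ℝ) k, ← Real.rpow_mul (by norm_num), mul_comm]
  have h3 : b ^ N ≤ (E : ℝ) ^ β * (x : ℝ) ^ β := by
    rw [← Real.mul_rpow (by positivity) (by positivity)]
    have h4 : ((2 : ℝ) ^ N) ≤ (E : ℝ) * x := by
      have := Nat.pow_log_le_self 2 (show E * x ≠ 0 by omega)
      exact_mod_cast this
    calc b ^ N = ((2 : ℝ) ^ N) ^ β := by
          rw [hb, ← Real.rpow_natCast ((2 : ℝ) ^ β) N, ← Real.rpow_mul (by norm_num),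
            ← Real.rpow_natCast (2 : ℝ) N, ← Real.rpow_mul (by norm_num), mul_comm]
      _ ≤ ((E : ℝ) * x) ^ β := by gcongr
  have h4 : ∑ k ∈ Finset.range (N + 1), C₁ * b ^ k ≤
      C₁ * (b / (b - 1)) * (E : ℝ) ^ β * (x : ℝ) ^ β := by
    rw [← Finset.mul_sum, geom_sum_eq hb1.ne']
    have hb2 : 0 < b - 1 := by linarith
    calc C₁ * ((b ^ (N + 1) - 1) / (b - 1)) ≤ C₁ * ((b ^ (N + 1)) / (b - 1)) := by
          gcongr
          linarith
      _ = C₁ * (b / (b - 1)) * b ^ N := by rw [pow_succ]; ring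
      _ ≤ C₁ * (b / (b - 1)) * ((E : ℝ) ^ β * (x : ℝ) ^ β) := by gcongr
      _ = _ := by ring
  exact h1.trans (h2.trans h4)

end Pool.Agent.Lib.MP_61161c_nt
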