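import Pool.Agent.Lib.MP_7b7e48_nt.KM.Kneser
import Pool.Agent.Lib.MP_7b7e48_nt.KM.Removal
import Pool.Agent.Lib.MP_7b7e48_nt.KM.PopSet
import Pool.Agent.Lib.MP_7b7e48_nt.KM.PopCyc
import Pool.Agent.Lib.MP_7b7e48_nt.KM.Spec
import Pool.Agent.Lib.MP_7b7e48_nt.KM.Bohr
import Pool.Agent.Lib.MP_7b7e48_nt.KM.AlmostPeriod
import Pool.Agent.Lib.MP_7b7e48_nt.KM.PopInt
import Pool.Agent.Lib.MP_7b7e48_nt.KM.SpecPR
import Pool.Agent.Lib.MP_7b7e48_nt.KM.Smooth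
import Pool.Agent.Lib.MP_7b7e48_nt.KM.DenseModel
import Pool.Agent.Lib.MP_7b7e48_nt.KM.RoughCls
import Pool.Agent.Lib.MP_7b7e48_nt.KM.ClsUnif
import Pool.Agent.Lib.MP_7b7e48_nt.KM.Acor
import Pool.Agent.Lib.MP_7b7e48_nt.KM.Transfer2
import Pool.Agent.Lib.MP_7b7e48_nt.KM.LocalPairs
import Pool.Agent.Lib.MP_7b7e48_nt.KM.Mass
import Pool.Agent.Lib.MP_7b7e48_nt.KM.Model
import Pool.Agent.Lib.MP_7b7e48_nt.KM.Global
import Pool.Agent.Lib.MP_7b7e48_nt.KM.PopCount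
import Pool.Agent.Lib.MP_7b7e48_nt.KM.Lower
import Pool.Agent.Lib.MP_7b7e48_nt.KM.Weyl
import Pool.Agent.Lib.MP_7b7e48_nt.KM.Equi
import Pool.Agent.Lib.MP_7b7e48_nt.KM.RotDens
import Pool.Agent.Lib.MP_7b7e48_nt.KM.Upper

/-!
# A sharp Kneser-Mann theorem for sets of primes

Let `a`, `b` be functions on the residues mod `q` with values in `[0, 1]`, and let `A`, `B` be sets
containing asymptotically at least the proportion `a (c mod q)`, `b (c mod q)` of the primes in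
every reduced residue class `c` to every modulus divisible by `q` and in every interval
`(sX, tX]`. Then `2 n` is a sum of two distinct primes `p ∈ A`, `p' ∈ B` for at least
`(K q a b - ε) X` of the `n ≤ X`, with at least `c X / log² X` representations, and the constant
`K q a b` is best possible for every `q`, `a`, `b`. For `q = 1` and `α, β > 0` it is `min 1 (α + β)`.
-/

open Finset

namespace Pool.Agent.Lib.MP_61161c_nt.KneserMannPrimes

/-- number of primes `p ∈ A` with `s X < p ≤ t X` and `p ≡ c` mod `m` -/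
noncomputable def cnt (A : Set ℕ) (m c : ℕ) (s t : ℝ) (X : ℕ) : ℕ :=
  Set.ncard {p : ℕ | p.Prime ∧ p ∈ A ∧ p % m = c % m ∧ s * X < p ∧ (p : ℝ) ≤ t * X}

/-- in every reduced class `c` to every modulus `m` divisible by `q`, and in every interval
`(sX, tX]`, the set `A` contains at least the proportion `a (c mod q)` of the primes,
asymptotically -/
def Dens (A : Set ℕ) (q : ℕ) (a : ℕ → ℝ) : Prop :=
  ∀ m c : ℕ, 0 < m → q ∣ m → c.Coprime m → ∀ s t : ℝ, 0 < s → s < t → ∀ ε : ℝ, 0 < ε →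
    ∃ X₀ : ℕ, ∀ X : ℕ, X₀ ≤ X →
      (a (c % q) - ε) * cnt Set.univ m c s t X ≤ cnt A m c s t X

/-- the maximum of `min 1 (a u + b v)` over the reduced residues `u`, `v` mod `q` with
`u + v = 2 z` mod `q` and `a u`, `b v` positive (`0` if there are none) -/
noncomputable def kz (q : ℕ) (a b : ℕ → ℝ) (z : ℕ) : ℝ :=
  ⨆ p : Fin q × Fin q, if (p.1 : ℕ).Coprime q ∧ (p.2 : ℕ).Coprime q ∧
    ((p.1 : ℕ) + p.2) % q = (2 * z) % q ∧ 0 < a p.1 ∧ 0 < b p.2 then min 1 (a p.1 + b p.2) else 0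

/-- the sharp constant: the average of `kz` over the residues mod `q` -/
noncomputable def K (q : ℕ) (a b : ℕ → ℝ) : ℝ := (∑ z ∈ range q, kz q a b z) / q

/-- number of representations `N = p + p'` by primes `p ∈ A`, `p' ∈ B`, `p ≠ p'` -/
noncomputable def rep (A B : Set ℕ) (N : ℕ) : ℕ :=
  Set.ncard {p : ℕ × ℕ | p.1.Prime ∧ p.2.Prime ∧ p.1 ∈ A ∧ p.2 ∈ B ∧ p.1 ≠ p.2 ∧ p.1 + p.2 = N}

theorem dens_iff (A : Set ℕ) (q : ℕ) (a : ℕ → ℝ) : Dens A q a ↔ Pool.Agent.Lib.KM.Dens A q a :=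
  Iff.rfl

theorem K_eq (q : ℕ) (a b : ℕ → ℝ) : K q a b = Pool.Agent.Lib.KM.K q a b := rfl

theorem rep_eq (A B : Set ℕ) (N : ℕ) : rep A B N = Pool.Agent.Lib.KM.rep A B N := rfl

open Pool.Agent.Lib.KM in
theorem lower : LowerS :=
  lower_of (model_of (denseModel_of specPR_holds bohr_holds smooth_holds)
      (clsUniform_of roughCls_holds) mass_holds) global_holds
    (popCount_of (popInt_of (popCyc_of (popSet_of kneser_holds removal_holds))
      (almostPeriod_of spec_holds bohr_holds)) localPairs_holds)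
    (transfer2_of acor_holds)

/-- **A sharp Kneser-Mann theorem for sets of primes.** -/
theorem result (q : ℕ) (a b : ℕ → ℝ)
    (hq : 0 < q) (ha : ∀ u, 0 ≤ a u ∧ a u ≤ 1) (hb : ∀ u, 0 ≤ b u ∧ b u ≤ 1) :
    (∀ ε : ℝ, 0 < ε → ∃ c : ℝ, 0 < c ∧ ∀ A B : Set ℕ, Dens A q a → Dens B q b →
      ∃ X₀ : ℕ, ∀ X : ℕ, X₀ ≤ X → (K q a b - ε) * X ≤
        (((Icc 1 X).filter (fun n => c * X / Real.log X ^ 2 ≤ (rep A B (2 * n) : ℝ))).card : ℝ)) ∧
    (∃ A B : Set ℕ, Dens A q a ∧ Dens B q b ∧ ∀ ε : ℝ, 0 < ε → ∃ X₀ : ℕ, ∀ X : ℕ, X₀ ≤ X →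
      (((Icc 1 X).filter (fun n => rep A B (2 * n) ≠ 0)).card : ℝ) ≤ (K q a b + ε) * X) :=
  ⟨fun ε hε => lower q a b hq ha hb ε hε, Pool.Agent.Lib.KM.rotSet q a,
    Pool.Agent.Lib.KM.rotSet q b,
    Pool.Agent.Lib.KM.rotDens_of Pool.Agent.Lib.KM.weyl_holds Pool.Agent.Lib.KM.equi_holds q a hq ha,
    Pool.Agent.Lib.KM.rotDens_of Pool.Agent.Lib.KM.weyl_holds Pool.Agent.Lib.KM.equi_holds q b hq hb,
    fun ε hε => Pool.Agent.Lib.KM.upper_of Pool.Agent.Lib.KM.equi_holds q a b hq ha hb ε hε⟩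

end Pool.Agent.Lib.MP_61161c_nt.KneserMannPrimes
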