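import Mathlib

/-!
# Random thin subsets through a pairwise independent family
-/

open Finset

namespace Pool.Agent.Lib.MP_61161c_nt

variable {M : ℕ} [Fact M.Prime]

/-- the affine family: parameters `(u, v)` for which `u q + v` lies in `I`. -/
theorem card_affine (I : Finset (ZMod M)) (q : ZMod M) :
    ((univ : Finset (ZMod M × ZMod M)).filter (fun t => t.1 * q + t.2 ∈ I)).card = M * I.card := by
  classical
  have h : ((univ : Finset (ZMod M × ZMod M)).filter (fun t => t.1 * q + t.2 ∈ I)).card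
      = ((univ : Finset (ZMod M)) ×ˢ I).card := by
    refine Finset.card_bij' (fun t _ => (t.1, t.1 * q + t.2)) (fun t _ => (t.1, t.2 - t.1 * q))
      ?_ ?_ ?_ ?_
    · intro t ht
      have := (Finset.mem_filter.mp ht).2
      exact Finset.mem_product.mpr ⟨Finset.mem_univ _, this⟩
    · intro t ht
      have := (Finset.mem_product.mp ht).2
      refine Finset.mem_filter.mpr ⟨Finset.mem_univ _, ?_⟩
      simpa using this
    · intro t _
      ext <;> simp
    · intro t _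
      ext <;> simp
  rw [h, Finset.card_product, Finset.card_univ, ZMod.card]

theorem card_affine_pair (I : Finset (ZMod M)) {q q' : ZMod M} (hqq : q ≠ q') :
    ((univ : Finset (ZMod M × ZMod M)).filter
      (fun t => t.1 * q + t.2 ∈ I ∧ t.1 * q' + t.2 ∈ I)).card = I.card * I.card := by
  classical
  have hne : q - q' ≠ 0 := sub_ne_zero.mpr hqq
  rw [← Finset.card_product]
  refine Finset.card_bij' (fun t _ => (t.1 * q + t.2, t.1 * q' + t.2))
    (fun s _ => ((s.1 - s.2) / (q - q'), s.1 - (s.1 - s.2) / (q - q') * q)) ?_ ?_ ?_ ?_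
  · intro t ht
    have := (Finset.mem_filter.mp ht).2
    exact Finset.mem_product.mpr this
  · intro s hs
    have hs' := Finset.mem_product.mp hs
    refine Finset.mem_filter.mpr ⟨Finset.mem_univ _, ?_, ?_⟩
    · have : (s.1 - s.2) / (q - q') * q + (s.1 - (s.1 - s.2) / (q - q') * q) = s.1 := by ring
      simpa [this] using hs'.1
    · have : (s.1 - s.2) / (q - q') * q' + (s.1 - (s.1 - s.2) / (q - q') * q) = s.2 := by
        field_simp
        ring
      simpa [this] using hs'.2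
  · intro t _
    have h1 : (t.1 * q + t.2 - (t.1 * q' + t.2)) / (q - q') = t.1 := by
      field_simp
      ring
    ext
    · simp only [h1]
    · simp only [h1]; ring
  · intro s _
    ext
    · simp only; ring
    · simp only
      field_simp
      ring

/-- parameter space -/
abbrev Par (M : ℕ) : Type := (ZMod M × ZMod M) × (ZMod M × ZMod M)

/-- the subset of `Q` selected by the parameter -/
noncomputable def sel (I : Finset (ZMod M)) (t : ZMod M × ZMod M) (Q : Finset ℕ) : Finset ℕ :=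
  open Classical in Q.filter (fun q => t.1 * (q : ZMod M) + t.2 ∈ I)

theorem sum_card_sel (I : Finset (ZMod M)) (Q : Finset ℕ) :
    ∑ t : ZMod M × ZMod M, ((sel I t Q).card : ℝ) = Q.card * (M * I.card) := by
  classical
  have h1 : ∀ t : ZMod M × ZMod M, ((sel I t Q).card : ℝ)
      = ∑ q ∈ Q, if t.1 * (q : ZMod M) + t.2 ∈ I then (1 : ℝ) else 0 := by
    intro t
    unfold sel
    rw [Finset.sum_boole]
  simp_rw [h1]
  rw [Finset.sum_comm]
  have h2 : ∀ q ∈ Q, ∑ t : ZMod M × ZMod M,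
      (if t.1 * (q : ZMod M) + t.2 ∈ I then (1 : ℝ) else 0) = M * I.card := by
    intro q _
    rw [Finset.sum_boole, card_affine]
    push_cast; ring
  rw [Finset.sum_congr rfl h2, Finset.sum_const, nsmul_eq_mul]

/-- The key second moment computation: if `T` is a set of `r` elements `q`, each with partner
`m - q`, then the number of parameters for which some pair is selected is large. -/
theorem pairs_lower (I J : Finset (ZMod M)) (T : Finset ℕ) (m : ℕ)
    (hT : ∀ q ∈ T, q < M) (hTm : ∀ q ∈ T, q ≤ m) :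
    (T.card : ℝ) * (M * I.card) * (M * J.card)
      - (T.card : ℝ) ^ 2 * (I.card : ℝ) ^ 2 * (J.card : ℝ) ^ 2 / 2 ≤
    (((univ : Finset (Par M)).filter (fun ω => ∃ q ∈ T,
      ω.1.1 * (q : ZMod M) + ω.1.2 ∈ I ∧ ω.2.1 * ((m - q : ℕ) : ZMod M) + ω.2.2 ∈ J)).card : ℝ) := by
  classical
  set E : ℕ → Par M → Prop := fun q ω =>
    ω.1.1 * (q : ZMod M) + ω.1.2 ∈ I ∧ ω.2.1 * ((m - q : ℕ) : ZMod M) + ω.2.2 ∈ J with hE
  set k : Par M → ℝ := fun ω => ∑ q ∈ T, if E q ω then (1 : ℝ) else 0 with hk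
  -- single events
  have hs1 : ∀ q, ∑ ω : Par M, (if E q ω then (1 : ℝ) else 0) = (M * I.card) * (M * J.card) := by
    intro q
    rw [Finset.sum_boole]
    have : ((univ : Finset (Par M)).filter (fun ω => E q ω)) =
        ((univ : Finset (ZMod M × ZMod M)).filter (fun t => t.1 * (q : ZMod M) + t.2 ∈ I)) ×ˢ
        ((univ : Finset (ZMod M × ZMod M)).filter
          (fun t => t.1 * ((m - q : ℕ) : ZMod M) + t.2 ∈ J)) := by
      ext ω
      simp [hE, Finset.mem_product]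
    rw [this, Finset.card_product, card_affine, card_affine]
    push_cast; ring
  have hs2 : ∀ q ∈ T, ∀ q' ∈ T, q ≠ q' →
      ∑ ω : Par M, (if E q ω then (1 : ℝ) else 0) * (if E q' ω then (1 : ℝ) else 0)
        = (I.card : ℝ) ^ 2 * (J.card : ℝ) ^ 2 := by
    intro q hq q' hq' hne
    have hq1 := hT q hq
    have hq2 := hT q' hq'
    have hm1 := hTm q hq
    have hm2 := hTm q' hq'
    have hc1 : (q : ZMod M) ≠ (q' : ZMod M) := by
      intro h
      rw [ZMod.natCast_eq_natCast_iff] at h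
      have := Nat.ModEq.eq_of_lt_of_lt h hq1 hq2
      exact hne this
    have hc2 : ((m - q : ℕ) : ZMod M) ≠ ((m - q' : ℕ) : ZMod M) := by
      rw [Nat.cast_sub hm1, Nat.cast_sub hm2]
      intro h
      apply hc1
      have := sub_right_injective h
      exact this
    have h1 : ∀ ω : Par M, (if E q ω then (1 : ℝ) else 0) * (if E q' ω then (1 : ℝ) else 0)
        = if (E q ω ∧ E q' ω) then (1 : ℝ) else 0 := by
      intro ω
      by_cases h1 : E q ω <;> by_cases h2 : E q' ω <;> simp [h1, h2]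
    simp_rw [h1]
    rw [Finset.sum_boole]
    have : ((univ : Finset (Par M)).filter (fun ω => E q ω ∧ E q' ω)) =
        ((univ : Finset (ZMod M × ZMod M)).filter
          (fun t => t.1 * (q : ZMod M) + t.2 ∈ I ∧ t.1 * (q' : ZMod M) + t.2 ∈ I)) ×ˢ
        ((univ : Finset (ZMod M × ZMod M)).filter
          (fun t => t.1 * ((m - q : ℕ) : ZMod M) + t.2 ∈ J ∧
            t.1 * ((m - q' : ℕ) : ZMod M) + t.2 ∈ J)) := by
      ext ω
      simp only [hE, Finset.mem_product, Finset.mem_filter, Finset.mem_univ, true_and]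
      tauto
    rw [this, Finset.card_product, card_affine_pair I hc1, card_affine_pair J hc2]
    push_cast; ring
  have hsumk : ∑ ω : Par M, k ω = (T.card : ℝ) * ((M * I.card) * (M * J.card)) := by
    simp only [hk]
    rw [Finset.sum_comm]
    simp_rw [hs1]
    rw [Finset.sum_const, nsmul_eq_mul]
  have hsumk2 : ∑ ω : Par M, (k ω) ^ 2 ≤ (T.card : ℝ) * ((M * I.card) * (M * J.card))
      + (T.card : ℝ) ^ 2 * ((I.card : ℝ) ^ 2 * (J.card : ℝ) ^ 2) := by
    have h1 : ∀ ω : Par M, (k ω) ^ 2 = ∑ q ∈ T, ∑ q' ∈ T,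
        (if E q ω then (1 : ℝ) else 0) * (if E q' ω then (1 : ℝ) else 0) := by
      intro ω
      simp only [hk]
      rw [sq, Finset.sum_mul_sum]
    simp_rw [h1]
    rw [Finset.sum_comm]
    have h2 : ∀ q ∈ T, ∑ ω : Par M, ∑ q' ∈ T,
        (if E q ω then (1 : ℝ) else 0) * (if E q' ω then (1 : ℝ) else 0) ≤
        (M * I.card) * (M * J.card) + (T.card : ℝ) * ((I.card : ℝ) ^ 2 * (J.card : ℝ) ^ 2) := by
      intro q hq
      rw [Finset.sum_comm]
      rw [← Finset.add_sum_erase T _ hq]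
      refine add_le_add (le_of_eq ?_) ?_
      · have : ∀ ω : Par M, (if E q ω then (1 : ℝ) else 0) * (if E q ω then (1 : ℝ) else 0)
            = (if E q ω then (1 : ℝ) else 0) := by
          intro ω
          by_cases h1 : E q ω <;> simp [h1]
        simp_rw [this]
        exact hs1 q
      · calc ∑ q' ∈ T.erase q, ∑ ω : Par M,
              (if E q ω then (1 : ℝ) else 0) * (if E q' ω then (1 : ℝ) else 0)
            = ∑ q' ∈ T.erase q, (I.card : ℝ) ^ 2 * (J.card : ℝ) ^ 2 := by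
              refine Finset.sum_congr rfl fun q' hq' => ?_
              exact hs2 q hq q' (Finset.mem_of_mem_erase hq') (Finset.ne_of_mem_erase hq').symm
          _ = ((T.erase q).card : ℝ) * ((I.card : ℝ) ^ 2 * (J.card : ℝ) ^ 2) := by
              rw [Finset.sum_const, nsmul_eq_mul]
          _ ≤ (T.card : ℝ) * ((I.card : ℝ) ^ 2 * (J.card : ℝ) ^ 2) := by
              refine mul_le_mul_of_nonneg_right ?_ (by positivity)
              exact_mod_cast Finset.card_le_card (Finset.erase_subset _ _)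
    refine (Finset.sum_le_sum h2).trans (le_of_eq ?_)
    rw [Finset.sum_const, nsmul_eq_mul]
    ring
  -- Bonferroni
  have hbon : ∀ ω : Par M, (3 * k ω - (k ω) ^ 2) / 2 ≤
      (if ∃ q ∈ T, E q ω then (1 : ℝ) else 0) := by
    intro ω
    have hkn : k ω = ((T.filter (fun q => E q ω)).card : ℝ) := by
      simp only [hk]
      rw [Finset.sum_boole]
    rw [hkn]
    by_cases h : ∃ q ∈ T, E q ω
    · rw [if_pos h]
      set j := (T.filter (fun q => E q ω)).card
      have hj : (0 : ℝ) ≤ ((j : ℝ) - 1) * ((j : ℝ) - 2) := by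
        rcases Nat.lt_or_ge j 2 with hj | hj
        · interval_cases j <;> norm_num
        · have : (2 : ℝ) ≤ j := by exact_mod_cast hj
          nlinarith
      nlinarith
    · rw [if_neg h]
      have : T.filter (fun q => E q ω) = ∅ := by
        rw [Finset.filter_eq_empty_iff]
        intro q hq hq2
        exact h ⟨q, hq, hq2⟩
      rw [this]
      simp
  have hfin : ∑ ω : Par M, (3 * k ω - (k ω) ^ 2) / 2 ≤
      ∑ ω : Par M, (if ∃ q ∈ T, E q ω then (1 : ℝ) else 0) :=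
    Finset.sum_le_sum fun ω _ => hbon ω
  rw [Finset.sum_boole] at hfin
  have hexp : ∑ ω : Par M, (3 * k ω - (k ω) ^ 2) / 2
      = (3 * ∑ ω : Par M, k ω - ∑ ω : Par M, (k ω) ^ 2) / 2 := by
    rw [← Finset.sum_div, Finset.sum_sub_distrib, Finset.mul_sum]
  rw [hexp, hsumk] at hfin
  have : (T.card : ℝ) * (M * I.card) * (M * J.card)
      - (T.card : ℝ) ^ 2 * (I.card : ℝ) ^ 2 * (J.card : ℝ) ^ 2 / 2 ≤
      (3 * ((T.card : ℝ) * ((M * I.card) * (M * J.card))) - ∑ ω : Par M, (k ω) ^ 2) / 2 := by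
    nlinarith [hsumk2]
  refine this.trans (hfin.trans (le_of_eq ?_))
  rfl

/-- Existence of thin subsets `A ⊆ Q`, `B ⊆ P` which still represent many of the `n ∈ G`. -/
theorem exists_thin (Q P G : Finset ℕ) (hQ : ∀ q ∈ Q, q < M)
    (r w₁ w₂ : ℕ) (hw₁ : w₁ ≤ M) (hw₂ : w₂ ≤ M)
    (hG : ∀ n ∈ G, r ≤ (Q.filter (fun q => q ≤ 2 * n ∧ 2 * n - q ∈ P)).card)
    (hμ : (r : ℝ) * w₁ * w₂ ≤ (M : ℝ) ^ 2) (l₁ l₂ : ℝ) :
    ∃ A ⊆ Q, ∃ B ⊆ P,
      (G.card : ℝ) * ((r : ℝ) * w₁ * w₂ / (M : ℝ) ^ 2) / 2 - l₁ * (Q.card * w₁ / M)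
        - l₂ * (P.card * w₂ / M) ≤
      ((G.filter (fun n => ∃ a ∈ A, a ≤ 2 * n ∧ 2 * n - a ∈ B)).card : ℝ)
        - l₁ * A.card - l₂ * B.card := by
  classical
  have hM0 : 0 < M := (Fact.out : M.Prime).pos
  have hMr : (0 : ℝ) < M := by exact_mod_cast hM0
  obtain ⟨I, hI⟩ : ∃ I : Finset (ZMod M), I.card = w₁ := by
    obtain ⟨I, _, hI⟩ := Finset.exists_subset_card_eq (s := (univ : Finset (ZMod M))) (n := w₁)
      (by rw [Finset.card_univ, ZMod.card]; exact hw₁)
    exact ⟨I, hI⟩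
  obtain ⟨J, hJ⟩ : ∃ J : Finset (ZMod M), J.card = w₂ := by
    obtain ⟨J, _, hJ⟩ := Finset.exists_subset_card_eq (s := (univ : Finset (ZMod M))) (n := w₂)
      (by rw [Finset.card_univ, ZMod.card]; exact hw₂)
    exact ⟨J, hJ⟩
  set A : Par M → Finset ℕ := fun ω => sel I ω.1 Q with hA
  set B : Par M → Finset ℕ := fun ω => sel J ω.2 P with hB
  set R : Par M → ℝ := fun ω =>
    ((G.filter (fun n => ∃ a ∈ A ω, a ≤ 2 * n ∧ 2 * n - a ∈ B ω)).card : ℝ) with hR
  have hcardPar : (Fintype.card (ZMod M × ZMod M) : ℝ) = (M : ℝ) ^ 2 := by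
    rw [Fintype.card_prod, ZMod.card]; push_cast; ring
  have hsumA : ∑ ω : Par M, ((A ω).card : ℝ) = (M : ℝ) ^ 2 * (Q.card * (M * w₁)) := by
    rw [Fintype.sum_prod_type]
    simp only [hA]
    simp_rw [Finset.sum_const, nsmul_eq_mul]
    rw [← Finset.mul_sum, sum_card_sel, Finset.card_univ, hcardPar, hI]
  have hsumB : ∑ ω : Par M, ((B ω).card : ℝ) = (M : ℝ) ^ 2 * (P.card * (M * w₂)) := by
    rw [Fintype.sum_prod_type]
    simp only [hB]
    simp_rw [sum_card_sel]
    rw [Finset.sum_const, Finset.card_univ, nsmul_eq_mul, hcardPar, hJ]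
  have hsumR : (G.card : ℝ) * ((r : ℝ) * (M * w₁) * (M * w₂)
      - (r : ℝ) ^ 2 * (w₁ : ℝ) ^ 2 * (w₂ : ℝ) ^ 2 / 2) ≤ ∑ ω : Par M, R ω := by
    have h1 : ∑ ω : Par M, R ω = ∑ n ∈ G, (((univ : Finset (Par M)).filter
        (fun ω => ∃ a ∈ A ω, a ≤ 2 * n ∧ 2 * n - a ∈ B ω)).card : ℝ) := by
      simp only [hR]
      simp_rw [Finset.card_filter]
      push_cast
      rw [Finset.sum_comm]
    rw [h1, ← nsmul_eq_mul, ← Finset.sum_const]
    refine Finset.sum_le_sum fun n hn => ?_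
    obtain ⟨T, hTsub, hTcard⟩ := Finset.exists_subset_card_eq (hG n hn)
    have hTmem : ∀ q ∈ T, q ∈ Q ∧ q ≤ 2 * n ∧ 2 * n - q ∈ P := by
      intro q hq
      have := Finset.mem_filter.mp (hTsub hq)
      exact ⟨this.1, this.2.1, this.2.2⟩
    have h2 := pairs_lower I J T (2 * n) (fun q hq => hQ q (hTmem q hq).1)
      (fun q hq => (hTmem q hq).2.1)
    rw [hTcard, hI, hJ] at h2
    refine h2.trans ?_
    norm_cast
    apply Finset.card_le_card
    intro ω hω
    have hω2 := (Finset.mem_filter.mp hω).2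
    obtain ⟨q, hq, hq1, hq2⟩ := hω2
    refine Finset.mem_filter.mpr ⟨Finset.mem_univ _, q, ?_, (hTmem q hq).2.1, ?_⟩
    · simp only [hA, sel]
      exact Finset.mem_filter.mpr ⟨(hTmem q hq).1, hq1⟩
    · simp only [hB, sel]
      exact Finset.mem_filter.mpr ⟨(hTmem q hq).2.2, hq2⟩
  set μ : ℝ := (r : ℝ) * w₁ * w₂ / (M : ℝ) ^ 2 with hμdef
  have hμ0 : 0 ≤ μ := by positivity
  have hμ1 : μ ≤ 1 := by
    rw [hμdef, div_le_one (by positivity)]
    exact hμ
  have hM4 : (0 : ℝ) < (M : ℝ) ^ 4 := by positivity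
  have hsumR' : (M : ℝ) ^ 4 * ((G.card : ℝ) * μ / 2) ≤ ∑ ω : Par M, R ω := by
    refine le_trans ?_ hsumR
    have h1 : (r : ℝ) * (M * w₁) * (M * w₂)
      - (r : ℝ) ^ 2 * (w₁ : ℝ) ^ 2 * (w₂ : ℝ) ^ 2 / 2 = (M : ℝ) ^ 4 * (μ - μ ^ 2 / 2) := by
      rw [hμdef]
      field_simp
    rw [h1]
    have h2 : μ / 2 ≤ μ - μ ^ 2 / 2 := by nlinarith
    have h3 : (0 : ℝ) ≤ (G.card : ℝ) := Nat.cast_nonneg _
    calc (M : ℝ) ^ 4 * ((G.card : ℝ) * μ / 2) = (G.card : ℝ) * ((M : ℝ) ^ 4 * (μ / 2)) := by ring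
      _ ≤ (G.card : ℝ) * ((M : ℝ) ^ 4 * (μ - μ ^ 2 / 2)) := by gcongr
  -- choose the best parameter
  set F : Par M → ℝ := fun ω => R ω - l₁ * (A ω).card - l₂ * (B ω).card with hF
  set v : ℝ := (G.card : ℝ) * μ / 2 - l₁ * (Q.card * w₁ / M) - l₂ * (P.card * w₂ / M) with hv
  have hcardP4 : (Fintype.card (Par M) : ℝ) = (M : ℝ) ^ 4 := by
    rw [Fintype.card_prod]
    push_cast
    rw [hcardPar]; ring
  have hsumF : (Fintype.card (Par M) : ℝ) * v ≤ ∑ ω : Par M, F ω := by
    simp only [hF]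
    rw [Finset.sum_sub_distrib, Finset.sum_sub_distrib, ← Finset.mul_sum, ← Finset.mul_sum,
      hsumA, hsumB, hcardP4]
    have : (M : ℝ) ^ 4 * v = (M : ℝ) ^ 4 * ((G.card : ℝ) * μ / 2)
        - l₁ * ((M : ℝ) ^ 2 * (Q.card * (M * w₁))) - l₂ * ((M : ℝ) ^ 2 * (P.card * (M * w₂))) := by
      rw [hv]
      field_simp
    rw [this]
    linarith
  obtain ⟨ω, -, hω⟩ : ∃ ω ∈ (univ : Finset (Par M)), v ≤ F ω := by
    apply Finset.exists_le_of_sum_le (Finset.univ_nonempty)
    rw [Finset.sum_const, nsmul_eq_mul, Finset.card_univ]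
    exact hsumF
  refine ⟨A ω, Finset.filter_subset _ _, B ω, Finset.filter_subset _ _, ?_⟩
  exact hω

end Pool.Agent.Lib.MP_61161c_nt
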