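import Mathlib
import Pool.Agent.Lib.MP_61161c_nt.RandomThin
import Pool.Agent.Lib.MP_61161c_nt.DenseGood

/-!
# One dyadic scale: thin subsets of both summand sets
-/

open Finset Filter

namespace Pool.Agent.Lib.MP_61161c_nt

open Pool.Agent.Lib.MP_5d7b92_nt (primeCounting_le)

theorem eventually_growth (α c : ℝ) (hα0 : 0 < α) (hα1 : α < 1) (hc : 0 < c) :
    ∃ X1 : ℕ, 16 ≤ X1 ∧ ∀ X : ℕ, X1 ≤ X →
      1 ≤ Real.log X ∧ 1 ≤ c * X / (Real.log X) ^ 2 ∧ (X : ℝ) ^ α * Real.log X ≤ X ∧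
        (X : ℝ) ^ (1 - α) * Real.log X ≤ X := by
  have h1 : ∀ᶠ x : ℝ in atTop, 1 ≤ Real.log x := Real.tendsto_log_atTop.eventually_ge_atTop 1
  have h2 : ∀ᶠ x : ℝ in atTop, (Real.log x) ^ 2 ≤ c * x := by
    have := (isLittleO_log_rpow_atTop (r := (1 / 2 : ℝ)) (by norm_num)).bound
      (show (0 : ℝ) < √c by positivity)
    filter_upwards [this, eventually_ge_atTop (1 : ℝ)] with x hx hx1
    have h3 : 0 ≤ Real.log x := Real.log_nonneg hx1
    rw [Real.norm_eq_abs, Real.norm_eq_abs, abs_of_nonneg h3,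
      abs_of_nonneg (by positivity)] at hx
    calc (Real.log x) ^ 2 ≤ (√c * x ^ (1 / 2 : ℝ)) ^ 2 := by gcongr
      _ = c * x := by
        rw [mul_pow, Real.sq_sqrt hc.le, ← Real.rpow_natCast (x ^ (1 / 2 : ℝ)) 2,
          ← Real.rpow_mul (by linarith)]
        norm_num
  have h3 : ∀ β : ℝ, 0 < β → β < 1 → ∀ᶠ x : ℝ in atTop, x ^ β * Real.log x ≤ x := by
    intro β hβ0 hβ1
    have := (isLittleO_log_rpow_atTop (r := (1 - β : ℝ)) (by linarith)).bound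
      (show (0 : ℝ) < 1 by norm_num)
    filter_upwards [this, eventually_ge_atTop (1 : ℝ)] with x hx hx1
    have h3 : 0 ≤ Real.log x := Real.log_nonneg hx1
    rw [Real.norm_eq_abs, Real.norm_eq_abs, abs_of_nonneg h3,
      abs_of_nonneg (by positivity), one_mul] at hx
    calc x ^ β * Real.log x ≤ x ^ β * x ^ (1 - β) := by gcongr
      _ = x := by
        rw [← Real.rpow_add (by linarith)]
        simp
  have h4 := h3 α hα0 hα1
  have h5 := h3 (1 - α) (by linarith) (by linarith)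
  have h6 := ((h1.and (h2.and (h4.and h5))).and (eventually_gt_atTop (0 : ℝ)))
  have h7 := tendsto_natCast_atTop_atTop (R := ℝ) |>.eventually h6
  obtain ⟨X1, hX1⟩ := eventually_atTop.mp h7
  refine ⟨max X1 16, le_max_right _ _, fun X hX => ?_⟩
  obtain ⟨⟨a1, a2, a3, a4⟩, a5⟩ := hX1 X ((le_max_left _ _).trans hX)
  refine ⟨a1, ?_, a3, a4⟩
  rw [le_div_iff₀ (by positivity), one_mul]
  exact a2

/-- At one scale `X` there are subsets `A`, `B` of the two pieces of `S` of sizes `O(X ^ α)` and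
`O(X ^ (1 - α))` which represent `≫ X` of the `n ≤ X`. -/
theorem thin_scale (α δ : ℝ) (hα0 : 0 < α) (hα1 : α < 1) (hδ : 0 < δ) :
    ∃ c C : ℝ, 0 < c ∧ 0 < C ∧ ∃ D : ℕ, 2 ≤ D ∧
    ∀ S : Set ℕ, (∀ p ∈ S, p.Prime) →
    (∀ᶠ x : ℕ in atTop, δ * x / Real.log x ≤ ((S ∩ Set.Icc 1 x).ncard : ℝ)) →
    ∃ X0 : ℕ, ∀ X : ℕ, X0 ≤ X →
      ∃ A ⊆ piece S (X / D / D) (X / D), ∃ B ⊆ piece S (X / D) X,
        (A.card : ℝ) ≤ C * (X : ℝ) ^ α ∧ (B.card : ℝ) ≤ C * (X : ℝ) ^ (1 - α) ∧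
        c * X ≤ (((Finset.Icc 1 X).filter
          (fun n => ∃ a ∈ A, a ≤ 2 * n ∧ 2 * n - a ∈ B)).card : ℝ) := by
  classical
  obtain ⟨c₀, hc₀, D, hD2, hmain⟩ := good_of_dense δ hδ
  set c : ℝ := min c₀ 1 with hc
  have hc0 : 0 < c := by positivity
  have hc1 : c ≤ 1 := min_le_right _ _
  have hcc : c ≤ c₀ := min_le_left _ _
  obtain ⟨X1, hX16, hX1⟩ := eventually_growth α c hα0 hα1 hc0
  refine ⟨c ^ 2 / 128, 1280 / c ^ 2, by positivity, by positivity, D, hD2, fun S hS hdens => ?_⟩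
  obtain ⟨X2, hX2⟩ := hmain S hS hdens
  refine ⟨max X1 X2, fun X hX => ?_⟩
  have hXX1 : X1 ≤ X := (le_max_left _ _).trans hX
  have hXX2 : X2 ≤ X := (le_max_right _ _).trans hX
  obtain ⟨hL1, hg2, hg3, hg4⟩ := hX1 X hXX1
  have hG0 := hX2 X hXX2
  have hX16' : 16 ≤ X := hX16.trans hXX1
  have hXr : (16 : ℝ) ≤ X := by exact_mod_cast hX16'
  have hXpos : (0 : ℝ) < X := by linarith
  set L := Real.log (X : ℝ) with hL
  have hL0 : 0 < L := by linarith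
  set Q := piece S (X / D / D) (X / D) with hQ
  set P := piece S (X / D) X with hP
  set G := (Finset.Icc 1 X).filter (fun n => c₀ * X / L ^ 2 ≤
        ((Q.filter (fun q => q ≤ 2 * n ∧ 2 * n - q ∈ P)).card : ℝ)) with hG
  -- the modulus
  obtain ⟨M, hMp, hM1, hM2⟩ := Nat.exists_prime_lt_and_le_two_mul (2 * X) (by omega)
  have : Fact M.Prime := ⟨hMp⟩
  have hM1r : (2 : ℝ) * X < M := by exact_mod_cast hM1
  have hM2r : (M : ℝ) ≤ 4 * X := by
    have : M ≤ 4 * X := by omega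
    exact_mod_cast this
  have hMpos : (0 : ℝ) < M := by linarith
  set Xa : ℝ := (X : ℝ) ^ α with hXa
  set Xb : ℝ := (X : ℝ) ^ (1 - α) with hXb
  have hXa0 : 0 < Xa := by positivity
  have hXb0 : 0 < Xb := by positivity
  have hXa1 : 1 ≤ Xa := Real.one_le_rpow (by linarith) hα0.le
  have hXb1 : 1 ≤ Xb := Real.one_le_rpow (by linarith) (by linarith)
  have hXab : Xa * Xb = X := by
    rw [hXa, hXb, ← Real.rpow_add hXpos]
    simp
  set w₁ := ⌈Xa * L⌉₊ with hw₁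
  set w₂ := ⌈Xb * L⌉₊ with hw₂
  set r := ⌊c * X / L ^ 2⌋₊ with hr
  have hXaL : 1 ≤ Xa * L := by nlinarith
  have hXbL : 1 ≤ Xb * L := by nlinarith
  have hw₁lo : Xa * L ≤ (w₁ : ℝ) := Nat.le_ceil _
  have hw₂lo : Xb * L ≤ (w₂ : ℝ) := Nat.le_ceil _
  have hw₁up0 : (w₁ : ℝ) < Xa * L + 1 := Nat.ceil_lt_add_one (by positivity)
  have hw₂up0 : (w₂ : ℝ) < Xb * L + 1 := Nat.ceil_lt_add_one (by positivity)
  have hw₁up : (w₁ : ℝ) ≤ 2 * (Xa * L) := by linarith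
  have hw₂up : (w₂ : ℝ) ≤ 2 * (Xb * L) := by linarith
  have hrup : (r : ℝ) ≤ c * X / L ^ 2 := Nat.floor_le (by positivity)
  have hrlo : c * X / L ^ 2 / 2 ≤ (r : ℝ) := by
    have := Nat.lt_floor_add_one (c * X / L ^ 2)
    have h1 : (1 : ℝ) ≤ r := by
      have : 1 ≤ r := Nat.le_floor (by simpa using hg2)
      exact_mod_cast this
    rw [← hr] at this
    linarith
  have hw₁M : w₁ ≤ M := by
    have : (w₁ : ℝ) ≤ M := by linarith
    exact_mod_cast this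
  have hw₂M : w₂ ≤ M := by
    have : (w₂ : ℝ) ≤ M := by linarith
    exact_mod_cast this
  have hGrep : ∀ n ∈ G, r ≤ (Q.filter (fun q => q ≤ 2 * n ∧ 2 * n - q ∈ P)).card := by
    intro n hn
    have h1 := (Finset.mem_filter.mp hn).2
    apply Nat.floor_le_of_le
    refine le_trans ?_ h1
    gcongr
  have hQM : ∀ q ∈ Q, q < M := by
    intro q hq
    rw [hQ, mem_piece] at hq
    have : q ≤ X := hq.1.2.trans (Nat.div_le_self _ _)
    omega
  have hprod_up : (r : ℝ) * w₁ * w₂ ≤ 4 * X ^ 2 := by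
    calc (r : ℝ) * w₁ * w₂ ≤ (c * X / L ^ 2) * (2 * (Xa * L)) * (2 * (Xb * L)) := by gcongr
      _ = 4 * c * X * (Xa * Xb) := by field_simp; ring
      _ = 4 * c * X ^ 2 := by rw [hXab]; ring
      _ ≤ 4 * 1 * X ^ 2 := by gcongr
      _ = 4 * X ^ 2 := by ring
  have hμ : (r : ℝ) * w₁ * w₂ ≤ (M : ℝ) ^ 2 := by
    refine hprod_up.trans ?_
    nlinarith
  have hprod_lo : c * X ^ 2 / 2 ≤ (r : ℝ) * w₁ * w₂ := by
    calc c * X ^ 2 / 2 = c * X / 2 * (Xa * Xb) := by rw [hXab]; ring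
      _ = (c * X / L ^ 2 / 2) * (Xa * L) * (Xb * L) := by field_simp
      _ ≤ (r : ℝ) * w₁ * w₂ := by gcongr
  have hμlo : c / 32 ≤ (r : ℝ) * w₁ * w₂ / (M : ℝ) ^ 2 := by
    rw [le_div_iff₀ (by positivity)]
    calc c / 32 * (M : ℝ) ^ 2 ≤ c / 32 * (4 * X) ^ 2 := by gcongr
      _ = c * X ^ 2 / 2 := by ring
      _ ≤ _ := hprod_lo
  have hGcard : c * X ≤ (G.card : ℝ) := by
    refine le_trans ?_ hG0
    gcongr
  -- sizes of Q and P
  have hpi : (Nat.primeCounting X : ℝ) ≤ 5 * X / L := primeCounting_le X (by omega)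
  have hQcard : (Q.card : ℝ) ≤ 5 * X / L := by
    refine le_trans ?_ hpi
    have h1 := card_piece_le S hS (X / D / D) (X / D)
    have h2 : Nat.primeCounting (X / D) ≤ Nat.primeCounting X :=
      Nat.monotone_primeCounting (Nat.div_le_self _ _)
    exact_mod_cast h1.trans h2
  have hPcard : (P.card : ℝ) ≤ 5 * X / L := by
    refine le_trans ?_ hpi
    exact_mod_cast card_piece_le S hS (X / D) X
  have hQw : (Q.card : ℝ) * w₁ / M ≤ 5 * Xa := by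
    rw [div_le_iff₀ hMpos]
    calc (Q.card : ℝ) * w₁ ≤ (5 * X / L) * (2 * (Xa * L)) := by gcongr
      _ = 5 * Xa * (2 * X) := by field_simp
      _ ≤ 5 * Xa * M := by gcongr
  have hPw : (P.card : ℝ) * w₂ / M ≤ 5 * Xb := by
    rw [div_le_iff₀ hMpos]
    calc (P.card : ℝ) * w₂ ≤ (5 * X / L) * (2 * (Xb * L)) := by gcongr
      _ = 5 * Xb * (2 * X) := by field_simp
      _ ≤ 5 * Xb * M := by gcongr
  set l₁ : ℝ := c ^ 2 / 1280 * Xb with hl₁
  set l₂ : ℝ := c ^ 2 / 1280 * Xa with hl₂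
  have hl₁0 : 0 < l₁ := by positivity
  have hl₂0 : 0 < l₂ := by positivity
  obtain ⟨A, hAQ, B, hBP, hfin⟩ := exists_thin Q P G hQM r w₁ w₂ hw₁M hw₂M hGrep hμ l₁ l₂
  have hmain1 : c ^ 2 / 64 * X ≤ (G.card : ℝ) * ((r : ℝ) * w₁ * w₂ / (M : ℝ) ^ 2) / 2 := by
    calc c ^ 2 / 64 * X = (c * X) * (c / 32) / 2 := by ring
      _ ≤ (G.card : ℝ) * ((r : ℝ) * w₁ * w₂ / (M : ℝ) ^ 2) / 2 := by gcongr
  have hmain2 : l₁ * (Q.card * w₁ / M) ≤ c ^ 2 / 256 * X := by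
    calc l₁ * (Q.card * w₁ / M) ≤ l₁ * (5 * Xa) := by gcongr
      _ = c ^ 2 / 256 * (Xa * Xb) := by rw [hl₁]; ring
      _ = c ^ 2 / 256 * X := by rw [hXab]
  have hmain3 : l₂ * (P.card * w₂ / M) ≤ c ^ 2 / 256 * X := by
    calc l₂ * (P.card * w₂ / M) ≤ l₂ * (5 * Xb) := by gcongr
      _ = c ^ 2 / 256 * (Xa * Xb) := by rw [hl₂]; ring
      _ = c ^ 2 / 256 * X := by rw [hXab]
  set R := ((G.filter (fun n => ∃ a ∈ A, a ≤ 2 * n ∧ 2 * n - a ∈ B)).card : ℝ) with hR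
  have hfin2 : c ^ 2 / 128 * X ≤ R - l₁ * A.card - l₂ * B.card := by
    refine le_trans ?_ hfin
    have : c ^ 2 / 128 * X = c ^ 2 / 64 * X - c ^ 2 / 256 * X - c ^ 2 / 256 * X := by ring
    rw [this]
    linarith
  have hRX : R ≤ X := by
    have h1 : (G.filter (fun n => ∃ a ∈ A, a ≤ 2 * n ∧ 2 * n - a ∈ B)).card
        ≤ (Finset.Icc 1 X).card :=
      Finset.card_le_card ((Finset.filter_subset _ _).trans (Finset.filter_subset _ _))
    rw [Nat.card_Icc, Nat.add_sub_cancel] at h1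
    rw [hR]
    exact_mod_cast h1
  have hA0 : 0 ≤ l₁ * (A.card : ℝ) := by positivity
  have hB0 : 0 ≤ l₂ * (B.card : ℝ) := by positivity
  have hcX : 0 ≤ c ^ 2 / 128 * X := by positivity
  refine ⟨A, hAQ, B, hBP, ?_, ?_, ?_⟩
  · have h1 : l₁ * (A.card : ℝ) ≤ X := by linarith
    have h2 : c ^ 2 / 1280 * Xb * (A.card : ℝ) ≤ Xa * Xb := by rw [hXab]; exact h1
    have h3 : c ^ 2 / 1280 * (A.card : ℝ) ≤ Xa := by
      have : (c ^ 2 / 1280 * (A.card : ℝ)) * Xb ≤ Xa * Xb := by linarith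
      exact le_of_mul_le_mul_right this hXb0
    have h4 : (0 : ℝ) < c ^ 2 := by positivity
    rw [div_mul_eq_mul_div, le_div_iff₀ h4]
    linarith
  · have h1 : l₂ * (B.card : ℝ) ≤ X := by linarith
    have h2 : c ^ 2 / 1280 * Xa * (B.card : ℝ) ≤ Xa * Xb := by rw [hXab]; exact h1
    have h3 : c ^ 2 / 1280 * (B.card : ℝ) ≤ Xb := by
      have : (c ^ 2 / 1280 * (B.card : ℝ)) * Xa ≤ Xb * Xa := by linarith
      exact le_of_mul_le_mul_right this hXa0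
    have h4 : (0 : ℝ) < c ^ 2 := by positivity
    rw [div_mul_eq_mul_div, le_div_iff₀ h4]
    linarith
  · have h1 : c ^ 2 / 128 * X ≤ R := by linarith
    refine h1.trans ?_
    rw [hR]
    have h2 : (G.filter (fun n => ∃ a ∈ A, a ≤ 2 * n ∧ 2 * n - a ∈ B)).card ≤
        ((Finset.Icc 1 X).filter (fun n => ∃ a ∈ A, a ≤ 2 * n ∧ 2 * n - a ∈ B)).card :=
      Finset.card_le_card (Finset.filter_subset_filter _ (Finset.filter_subset _ _))
    exact_mod_cast h2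

end Pool.Agent.Lib.MP_61161c_nt
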