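import Mathlib
import Pool.Agent.Lib.MP_7b7e48_nt.Romanoff
import Pool.Agent.Lib.MP_7b7e48_nt.SquareMean

/-!
# A thin set of primes `A` with `A + P` of positive lower density in the even integers
-/

open Finset Filter

namespace Pool.Agent.Lib.MP_61161c_nt

open Pool.Agent.Lib.MP_7b7e48_nt

/-- greedy choice of a subset with small pair sum -/
theorem greedy (P : Finset ℕ) (F : ℕ → ℕ → ℝ) (hF : ∀ a b, 0 ≤ F a b) (hsymm : ∀ a b, F a b = F b a)
    (K : ℝ) (hK : 0 ≤ K)
    (hsum : ∑ a ∈ P, ∑ b ∈ P, F a b ≤ K * (P.card : ℝ) ^ 2) (m : ℕ) (hm : 4 * m ≤ P.card) :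
    ∃ S ⊆ P, S.card = m ∧ ∑ a ∈ S, ∑ b ∈ S.filter (fun b => a < b), F a b ≤ 8 * K * (m : ℝ) ^ 2 := by
  classical
  rcases Nat.eq_zero_or_pos m with hm0 | hmpos
  · subst hm0
    exact ⟨∅, Finset.empty_subset _, rfl, by simp⟩
  set M : ℝ := (P.card : ℝ) with hM
  have hMpos : 0 < M := by
    rw [hM]
    exact_mod_cast (by omega : 0 < P.card)
  set P' := P.filter (fun a => ∑ b ∈ P, F a b ≤ 2 * K * M) with hP'
  -- half of the elements are good
  have hP'card : M / 2 ≤ (P'.card : ℝ) := by
    rcases hK.eq_or_lt with hK0 | hKpos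
    · have hall : P' = P := by
        rw [hP']
        apply Finset.filter_true_of_mem
        intro a ha
        have h1 : ∑ b ∈ P, F a b ≤ ∑ a ∈ P, ∑ b ∈ P, F a b :=
          Finset.single_le_sum (f := fun a => ∑ b ∈ P, F a b)
            (fun a _ => Finset.sum_nonneg fun b _ => hF a b) ha
        rw [← hK0] at hsum ⊢
        simp only [zero_mul, mul_zero] at hsum ⊢
        linarith
      rw [hall, ← hM]
      linarith
    · have h1 : ∑ a ∈ P.filter (fun a => ¬ ∑ b ∈ P, F a b ≤ 2 * K * M), (2 * K * M) ≤
          ∑ a ∈ P, ∑ b ∈ P, F a b := by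
        calc ∑ a ∈ P.filter (fun a => ¬ ∑ b ∈ P, F a b ≤ 2 * K * M), (2 * K * M)
            ≤ ∑ a ∈ P.filter (fun a => ¬ ∑ b ∈ P, F a b ≤ 2 * K * M), ∑ b ∈ P, F a b := by
              refine Finset.sum_le_sum fun a ha => ?_
              exact (not_le.mp (Finset.mem_filter.mp ha).2).le
          _ ≤ ∑ a ∈ P, ∑ b ∈ P, F a b :=
              Finset.sum_le_sum_of_subset_of_nonneg (Finset.filter_subset _ _)
                (fun a _ _ => Finset.sum_nonneg fun b _ => hF a b)
      rw [Finset.sum_const, nsmul_eq_mul] at h1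
      have h2 := h1.trans hsum
      have h3 : ((P.filter (fun a => ¬ ∑ b ∈ P, F a b ≤ 2 * K * M)).card : ℝ) ≤ M / 2 := by
        have h4 : ((P.filter (fun a => ¬ ∑ b ∈ P, F a b ≤ 2 * K * M)).card : ℝ) * (2 * K * M) ≤
            (M / 2) * (2 * K * M) := by
          calc _ ≤ K * M ^ 2 := h2
            _ = _ := by ring
        exact le_of_mul_le_mul_right h4 (by positivity)
      have h5 := Finset.card_filter_add_card_filter_not (s := P) (fun a => ∑ b ∈ P, F a b ≤ 2 * K * M)
      have h6 : (P'.card : ℝ) + ((P.filter (fun a => ¬ ∑ b ∈ P, F a b ≤ 2 * K * M)).card : ℝ) = M := by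
        rw [hP', hM]
        exact_mod_cast h5
      linarith
  -- the greedy induction
  have hind : ∀ k : ℕ, k ≤ m → ∃ S ⊆ P', S.card = k ∧
      ∑ a ∈ S, ∑ b ∈ S.filter (fun b => a < b), F a b ≤ 8 * K * (k : ℝ) ^ 2 := by
    intro k
    induction k with
    | zero =>
      intro _
      exact ⟨∅, Finset.empty_subset _, rfl, by simp⟩
    | succ k ih =>
      intro hk
      obtain ⟨S, hSP, hScard, hS⟩ := ih (by omega)
      have hdiff : M / 4 ≤ ((P' \ S).card : ℝ) := by
        have h1 : P'.card ≤ (P' \ S).card + S.card := by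
          rw [Finset.card_sdiff_add_card_eq_card hSP]
        have h2 : (P'.card : ℝ) ≤ ((P' \ S).card : ℝ) + S.card := by exact_mod_cast h1
        have h3 : (S.card : ℝ) ≤ M / 4 := by
          rw [hScard, hM]
          have : ((4 * m : ℕ) : ℝ) ≤ (P.card : ℝ) := by exact_mod_cast hm
          have h4 : (k : ℝ) ≤ m := by exact_mod_cast (by omega : k ≤ m)
          push_cast at this
          linarith
        linarith
      have hne : (P' \ S).Nonempty := by
        rw [← Finset.card_pos]
        have : (0 : ℝ) < ((P' \ S).card : ℝ) := by linarith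
        exact_mod_cast this
      have hav : ∑ a ∈ P' \ S, ∑ s ∈ S, F a s ≤ ∑ a ∈ P' \ S, (8 * K * k : ℝ) := by
        rw [Finset.sum_comm]
        calc ∑ s ∈ S, ∑ a ∈ P' \ S, F a s ≤ ∑ s ∈ S, (2 * K * M) := by
              refine Finset.sum_le_sum fun s hs => ?_
              have h1 := (Finset.mem_filter.mp (hSP hs)).2
              refine le_trans ?_ h1
              calc ∑ a ∈ P' \ S, F a s = ∑ a ∈ P' \ S, F s a :=
                    Finset.sum_congr rfl fun a _ => hsymm a s
                _ ≤ ∑ a ∈ P, F s a := by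
                    refine Finset.sum_le_sum_of_subset_of_nonneg ?_ (fun a _ _ => hF s a)
                    exact (Finset.sdiff_subset).trans (Finset.filter_subset _ _)
          _ = (8 * K * k) * (M / 4) := by
              rw [Finset.sum_const, nsmul_eq_mul, hScard]; ring
          _ ≤ (8 * K * k) * ((P' \ S).card : ℝ) := by gcongr
          _ = ∑ a ∈ P' \ S, (8 * K * k : ℝ) := by
              rw [Finset.sum_const, nsmul_eq_mul]; ring
      obtain ⟨x, hx, hxle⟩ := Finset.exists_le_of_sum_le hne hav
      have hxS : x ∉ S := (Finset.mem_sdiff.mp hx).2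
      refine ⟨insert x S, ?_, ?_, ?_⟩
      · intro y hy
        rcases Finset.mem_insert.mp hy with rfl | hy
        · exact (Finset.mem_sdiff.mp hx).1
        · exact hSP hy
      · rw [Finset.card_insert_of_notMem hxS, hScard]
      · rw [Finset.sum_insert hxS]
        have h1 : (insert x S).filter (fun b => x < b) = S.filter (fun b => x < b) := by
          rw [Finset.filter_insert, if_neg (lt_irrefl x)]
        have h2 : ∑ a ∈ S, ∑ b ∈ (insert x S).filter (fun b => a < b), F a b =
            ∑ a ∈ S, ∑ b ∈ S.filter (fun b => a < b), F a b +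
              ∑ a ∈ S.filter (fun a => a < x), F a x := by
          rw [Finset.sum_filter (s := S) (p := fun a => a < x), ← Finset.sum_add_distrib]
          refine Finset.sum_congr rfl fun a _ => ?_
          rw [Finset.filter_insert]
          split_ifs with hax
          · rw [Finset.sum_insert (by
              intro h; exact hxS (Finset.mem_filter.mp h).1)]
            ring
          · ring
        rw [h1, h2]
        have h3 : ∑ b ∈ S.filter (fun b => x < b), F x b + ∑ a ∈ S.filter (fun a => a < x), F a x
            ≤ ∑ s ∈ S, F x s := by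
          have h4 : ∑ a ∈ S.filter (fun a => a < x), F a x = ∑ a ∈ S.filter (fun a => a < x), F x a :=
            Finset.sum_congr rfl fun a _ => hsymm a x
          rw [h4, ← Finset.sum_union (by
            rw [Finset.disjoint_left]
            intro a ha hb
            have ha := (Finset.mem_filter.mp ha).2
            have hb := (Finset.mem_filter.mp hb).2
            omega)]
          refine Finset.sum_le_sum_of_subset_of_nonneg ?_ (fun a _ _ => hF x a)
          intro a ha
          rcases Finset.mem_union.mp ha with h | h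
          · exact (Finset.mem_filter.mp h).1
          · exact (Finset.mem_filter.mp h).1
        push_cast
        have hk0 : (0 : ℝ) ≤ k := Nat.cast_nonneg k
        nlinarith [mul_nonneg hK hk0]
  obtain ⟨S, hSP, hScard, hS⟩ := hind m le_rfl
  exact ⟨S, hSP.trans (Finset.filter_subset _ _), hScard, hS⟩

end Pool.Agent.Lib.MP_61161c_nt
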