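import Mathlib
import Pool.Agent.Lib.MP_61161c_nt.ThinSet

/-!
# The blocks of the thin set of primes
-/

open Finset Filter

namespace Pool.Agent.Lib.MP_61161c_nt

open Pool.Agent.Lib.MP_7b7e48_nt

/-- `h / φ(h)` at the distance of `a` and `b`. -/
noncomputable def Fd (a b : ℕ) : ℝ := (((a - b) + (b - a) : ℕ) : ℝ) / (Nat.totient ((a - b) + (b - a)) : ℝ)

theorem Fd_nonneg (a b : ℕ) : 0 ≤ Fd a b := by unfold Fd; positivity

theorem Fd_symm (a b : ℕ) : Fd a b = Fd b a := by unfold Fd; rw [Nat.add_comm]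

theorem Fd_self (a : ℕ) : Fd a a = 0 := by unfold Fd; simp

theorem Fd_of_lt {a b : ℕ} (h : a < b) : Fd a b = ((b - a : ℕ) : ℝ) / (Nat.totient (b - a) : ℝ) := by
  unfold Fd
  have : (a - b) + (b - a) = b - a := by omega
  rw [this]

theorem diffSum_eq (Q : Finset ℕ) :
    diffSum Q = ∑ a ∈ Q, ∑ b ∈ Q.filter (fun b => a < b), Fd a b := by
  unfold diffSum
  refine Finset.sum_congr rfl fun a _ => Finset.sum_congr rfl fun b hb => ?_
  rw [Fd_of_lt (Finset.mem_filter.mp hb).2]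

theorem sum_Fd_eq (Q : Finset ℕ) : ∑ a ∈ Q, ∑ b ∈ Q, Fd a b = 2 * diffSum Q := by
  classical
  have h1 : ∀ a ∈ Q, ∑ b ∈ Q, Fd a b = ∑ b ∈ Q.filter (fun b => a < b), Fd a b +
      ∑ b ∈ Q.filter (fun b => b < a), Fd a b := by
    intro a _
    rw [Finset.sum_filter, Finset.sum_filter, ← Finset.sum_add_distrib]
    refine Finset.sum_congr rfl fun b _ => ?_
    rcases lt_trichotomy a b with h | h | h
    · rw [if_pos h, if_neg (by omega)]; ring
    · subst h
      rw [if_neg (lt_irrefl _), Fd_self]; ring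
    · rw [if_pos h, if_neg (by omega)]; ring
  rw [Finset.sum_congr rfl h1, Finset.sum_add_distrib, diffSum_eq]
  have h2 : ∑ a ∈ Q, ∑ b ∈ Q.filter (fun b => b < a), Fd a b =
      ∑ a ∈ Q, ∑ b ∈ Q.filter (fun b => a < b), Fd a b := by
    simp_rw [Finset.sum_filter]
    rw [Finset.sum_comm]
    refine Finset.sum_congr rfl fun a _ => Finset.sum_congr rfl fun b _ => ?_
    split_ifs
    · rw [Fd_symm]
    · rfl
  rw [h2]; ring

theorem diffSum_mono {P Q : Finset ℕ} (h : P ⊆ Q) : diffSum P ≤ diffSum Q := by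
  unfold diffSum
  calc ∑ q ∈ P, ∑ q' ∈ P.filter (fun q' => q < q'), ((q' - q : ℕ) : ℝ) / (Nat.totient (q' - q) : ℝ)
      ≤ ∑ q ∈ P, ∑ q' ∈ Q.filter (fun q' => q < q'), ((q' - q : ℕ) : ℝ) / (Nat.totient (q' - q) : ℝ) := by
        refine Finset.sum_le_sum fun q _ => ?_
        refine Finset.sum_le_sum_of_subset_of_nonneg (Finset.filter_subset_filter _ h) ?_
        intro _ _ _; positivity
    _ ≤ _ := by
        refine Finset.sum_le_sum_of_subset_of_nonneg h ?_
        intro _ _ _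
        exact Finset.sum_nonneg fun _ _ => by positivity

theorem add_seven_le (i : ℕ) (hi : 4 ≤ i) : i + 7 ≤ 2 ^ i := by
  induction i, hi using Nat.le_induction with
  | base => norm_num
  | succ n hn ih => rw [pow_succ]; omega

theorem exists_block : ∃ K : ℝ, 1 ≤ K ∧ ∀ i : ℕ, 4 ≤ i → ∃ S : Finset ℕ,
    S.card = 2 ^ (i + 3) ∧ (∀ q ∈ S, q.Prime ∧ q ≠ 2 ∧ 2 ^ (2 ^ i) < q ∧ q ≤ 2 ^ (2 ^ (i + 1))) ∧
    diffSum S ≤ K * (S.card : ℝ) ^ 2 := by
  classical
  obtain ⟨K, hK, hdiff⟩ := diffSum_oddPrimes_le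
  refine ⟨8 * (8 * K), by linarith, fun i hi => ?_⟩
  set T : ℕ := 2 ^ (2 ^ i) with hT
  set Y : ℕ := 2 ^ (2 ^ (i + 1)) with hY
  have hYT : Y = T ^ 2 := by
    rw [hY, hT, ← pow_mul, pow_succ]
  have hTbig : 128 * 2 ^ i ≤ T := by
    rw [hT]
    calc 128 * 2 ^ i = 2 ^ (i + 7) := by rw [pow_add]; ring
      _ ≤ 2 ^ (2 ^ i) := Nat.pow_le_pow_right (by norm_num) (add_seven_le i hi)
  have h2i : 16 ≤ 2 ^ i := by
    calc 16 = 2 ^ 4 := by norm_num
      _ ≤ 2 ^ i := Nat.pow_le_pow_right (by norm_num) hi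
  have hT3 : 3 ≤ T := by omega
  have hTr : (3 : ℝ) ≤ T := by exact_mod_cast hT3
  have hY3 : 3 ≤ Y := by rw [hYT]; nlinarith
  have hlogT : Real.log T ≤ 2 ^ i := by
    rw [hT]
    push_cast
    rw [Real.log_pow]
    have h1 : Real.log 2 ≤ 1 := by
      have := Real.log_two_lt_d9
      linarith
    push_cast
    have h2 : (0 : ℝ) < 2 ^ i := by positivity
    nlinarith
  have hlogTpos : 0 < Real.log T := Real.log_pos (by linarith)
  have hlogY : Real.log Y = 2 * Real.log T := by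
    rw [hYT]; push_cast; rw [Real.log_pow]; norm_num
  have hlogT80 : 128 * Real.log T ≤ T := by
    have : ((128 * 2 ^ i : ℕ) : ℝ) ≤ T := by exact_mod_cast hTbig
    push_cast at this
    linarith
  set P := (oddPrimes Y).filter (fun q => T < q) with hP
  have hcardO := card_oddPrimes_ge Y hY3
  have hcardO' : (2 : ℝ) * T ≤ ((oddPrimes Y).card : ℝ) := by
    refine le_trans ?_ hcardO
    rw [hlogY, le_div_iff₀ (by positivity), hYT]
    push_cast
    nlinarith
  have hPcard : ((oddPrimes Y).card : ℝ) ≤ 2 * P.card := by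
    have h1 := Finset.card_filter_add_card_filter_not (s := oddPrimes Y) (fun q => T < q)
    have h2 : ((oddPrimes Y).filter (fun q => ¬ T < q)).card ≤ T := by
      have : (oddPrimes Y).filter (fun q => ¬ T < q) ⊆ Finset.Icc 1 T := by
        intro q hq
        have hq := Finset.mem_filter.mp hq
        have h3 := Finset.mem_filter.mp hq.1
        have h4 := Finset.mem_Icc.mp h3.1
        rw [Finset.mem_Icc]
        omega
      calc _ ≤ (Finset.Icc 1 T).card := Finset.card_le_card this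
        _ = T := by simp
    have h3 : (P.card : ℝ) + (((oddPrimes Y).filter (fun q => ¬ T < q)).card : ℝ) =
        ((oddPrimes Y).card : ℝ) := by
      rw [hP]; exact_mod_cast h1
    have h4 : (((oddPrimes Y).filter (fun q => ¬ T < q)).card : ℝ) ≤ T := by exact_mod_cast h2
    linarith
  have hPT : T ≤ P.card := by
    have : (T : ℝ) ≤ P.card := by linarith
    exact_mod_cast this
  have hsum : ∑ a ∈ P, ∑ b ∈ P, Fd a b ≤ (8 * K) * (P.card : ℝ) ^ 2 := by
    rw [sum_Fd_eq]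
    have h1 : diffSum P ≤ diffSum (oddPrimes Y) := diffSum_mono (Finset.filter_subset _ _)
    have h2 := hdiff Y hY3
    have h3 : ((oddPrimes Y).card : ℝ) ^ 2 ≤ (2 * P.card) ^ 2 :=
      pow_le_pow_left₀ (Nat.cast_nonneg _) hPcard 2
    have h4 : K * ((oddPrimes Y).card : ℝ) ^ 2 ≤ K * (2 * P.card) ^ 2 :=
      mul_le_mul_of_nonneg_left h3 (by linarith)
    calc 2 * diffSum P ≤ 2 * (K * (2 * P.card) ^ 2) := by linarith
      _ = 8 * K * (P.card : ℝ) ^ 2 := by ring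
  have hm : 4 * 2 ^ (i + 3) ≤ P.card := by
    refine le_trans ?_ hPT
    calc 4 * 2 ^ (i + 3) = 32 * 2 ^ i := by rw [pow_add]; ring
      _ ≤ 128 * 2 ^ i := by omega
      _ ≤ T := hTbig
  obtain ⟨S, hSP, hScard, hS⟩ := greedy P Fd Fd_nonneg Fd_symm (8 * K) (by linarith) hsum
    (2 ^ (i + 3)) hm
  refine ⟨S, hScard, ?_, ?_⟩
  · intro q hq
    have h1 := Finset.mem_filter.mp (hSP hq)
    have h2 := Finset.mem_filter.mp h1.1
    have h3 := Finset.mem_Icc.mp h2.1
    exact ⟨h2.2, by omega, h1.2, h3.2⟩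
  · rw [diffSum_eq, hScard]
    exact hS

/-- The thin set. -/
theorem thin_set : ∃ A : Set ℕ, (∀ a ∈ A, a.Prime) ∧
    (∀ x : ℕ, 2 ≤ x → ((A ∩ Set.Iic x).ncard : ℝ) ≤ 24 * Real.log x) ∧
    ∃ c : ℝ, 0 < c ∧ ∃ X₀ : ℕ, ∀ X : ℕ, X₀ ≤ X →
      c * X ≤ ({n : ℕ | n ≤ X ∧ ∃ p q : ℕ, p ∈ A ∧ q.Prime ∧ p < q ∧ p + q = 2 * n}.ncard : ℝ) := by
  classical
  obtain ⟨K, hK, hblock⟩ := exists_block
  choose! S hScard hSmem hSdiff using hblock
  refine ⟨{a | ∃ i, 4 ≤ i ∧ a ∈ S i}, ?_, ?_, ?_⟩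
  · rintro a ⟨i, hi, ha⟩
    exact (hSmem i hi a ha).1
  · intro x hx
    set L := Nat.log 2 x with hL
    have hL1 : 1 ≤ L := by
      rw [hL]
      exact Nat.log_pos (by norm_num) hx
    set J := Nat.log 2 L with hJ
    have hsub : {a | ∃ i, 4 ≤ i ∧ a ∈ S i} ∩ Set.Iic x ⊆
        (((Finset.Icc 4 J).biUnion S : Finset ℕ) : Set ℕ) := by
      rintro a ⟨⟨i, hi, ha⟩, hax⟩
      have h1 := (hSmem i hi a ha).2.2.1
      have h2 : 2 ^ (2 ^ i) ≤ x := (h1.trans_le hax).le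
      have h3 : 2 ^ i ≤ L := (Nat.le_log_iff_pow_le (by norm_num) (by omega)).mpr h2
      have h4 : i ≤ J := (Nat.le_log_iff_pow_le (by norm_num) (by omega)).mpr h3
      rw [Finset.mem_coe, Finset.mem_biUnion]
      exact ⟨i, Finset.mem_Icc.mpr ⟨hi, h4⟩, ha⟩
    have h1 : ({a | ∃ i, 4 ≤ i ∧ a ∈ S i} ∩ Set.Iic x).ncard ≤ ((Finset.Icc 4 J).biUnion S).card := by
      rw [← Set.ncard_coe_finset]
      exact Set.ncard_le_ncard hsub (Finset.finite_toSet _)
    have h2 : ((Finset.Icc 4 J).biUnion S).card ≤ ∑ i ∈ Finset.Icc 4 J, 2 ^ (i + 3) := by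
      refine Finset.card_biUnion_le.trans (Finset.sum_le_sum fun i hi => ?_)
      rw [hScard i (Finset.mem_Icc.mp hi).1]
    have h3 : ∑ i ∈ Finset.Icc 4 J, 2 ^ (i + 3) ≤ 2 ^ (J + 4) := by
      have : ∀ J : ℕ, ∑ i ∈ Finset.Icc 4 J, 2 ^ (i + 3) ≤ 2 ^ (J + 4) := by
        intro J
        induction J with
        | zero => simp
        | succ n ih =>
          rcases Nat.lt_or_ge (n + 1) 4 with h | h
          · rw [Finset.Icc_eq_empty (by omega)]
            simp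
          · rw [Finset.sum_Icc_succ_top h]
            have e1 : 2 ^ (n + 1 + 3) = 2 ^ (n + 4) := by ring_nf
            have e2 : 2 ^ (n + 1 + 4) = 2 * 2 ^ (n + 4) := by
              rw [show n + 1 + 4 = (n + 4) + 1 by ring, pow_succ]; ring
            omega
      exact this J
    have h4 : 2 ^ J ≤ L := Nat.pow_log_le_self 2 (by omega)
    have h5 : (L : ℝ) * Real.log 2 ≤ Real.log x := by
      have h6 : 2 ^ L ≤ x := Nat.pow_log_le_self 2 (by omega)
      have h7 : Real.log ((2 : ℝ) ^ L) ≤ Real.log x :=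
        Real.log_le_log (by positivity) (by exact_mod_cast h6)
      rwa [Real.log_pow] at h7
    have h6 : ({a | ∃ i, 4 ≤ i ∧ a ∈ S i} ∩ Set.Iic x).ncard ≤ 16 * L := by
      calc _ ≤ _ := h1
        _ ≤ _ := h2
        _ ≤ _ := h3
        _ = 16 * 2 ^ J := by rw [pow_add]; ring
        _ ≤ 16 * L := by omega
    have h7 : (({a | ∃ i, 4 ≤ i ∧ a ∈ S i} ∩ Set.Iic x).ncard : ℝ) ≤ 16 * L := by exact_mod_cast h6
    have h8 : (0.6931471803 : ℝ) < Real.log 2 := Real.log_two_gt_d9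
    have h9 : (0 : ℝ) < L := by exact_mod_cast hL1
    nlinarith
  · obtain ⟨c, hc, X0, hrom⟩ := romanoff
    refine ⟨c / K, by positivity, max X0 (400 * 2 ^ (2 ^ 5)), fun X hX => ?_⟩
    have hX0 : X0 ≤ X := (le_max_left _ _).trans hX
    have hX5 : 400 * 2 ^ (2 ^ 5) ≤ X := (le_max_right _ _).trans hX
    -- choose the scale
    have hex : ∃ j : ℕ, X < 400 * 2 ^ (2 ^ (j + 1)) := by
      refine ⟨X, ?_⟩
      have h1 : X < 2 ^ X := Nat.lt_two_pow_self
      have h2 : 2 ^ X ≤ 2 ^ (2 ^ (X + 1)) := by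
        apply Nat.pow_le_pow_right (by norm_num)
        have : X + 1 < 2 ^ (X + 1) := Nat.lt_two_pow_self
        omega
      omega
    set j := Nat.find hex with hj
    have hj1 : X < 400 * 2 ^ (2 ^ (j + 1)) := Nat.find_spec hex
    have hj5 : 5 ≤ j := by
      by_contra hcon
      have h1 : 2 ^ (2 ^ (j + 1)) ≤ 2 ^ (2 ^ 5) := by
        apply Nat.pow_le_pow_right (by norm_num)
        apply Nat.pow_le_pow_right (by norm_num)
        omega
      omega
    obtain ⟨i, hi⟩ : ∃ i, j = i + 1 := ⟨j - 1, by omega⟩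
    have hi4 : 4 ≤ i := by omega
    have hiX : 400 * 2 ^ (2 ^ (i + 1)) ≤ X := by
      have := Nat.find_min hex (m := i) (by omega)
      omega
    rw [hi] at hj1
    have hQ : ∀ q ∈ S i, q.Prime ∧ q ≠ 2 ∧ q ≤ X / 400 := by
      intro q hq
      obtain ⟨h1, h2, _, h4⟩ := hSmem i hi4 q hq
      refine ⟨h1, h2, ?_⟩
      rw [Nat.le_div_iff_mul_le (by norm_num)]
      calc q * 400 = 400 * q := Nat.mul_comm _ _
        _ ≤ 400 * 2 ^ (2 ^ (i + 1)) := Nat.mul_le_mul_left _ h4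
        _ ≤ X := hiX
    have hXpos : 0 < X := by omega
    have hQL : Real.log X ≤ ((S i).card : ℝ) := by
      rw [hScard i hi4]
      have h1 : Real.log X ≤ Real.log ((400 * 2 ^ (2 ^ (i + 1 + 1)) : ℕ) : ℝ) :=
        Real.log_le_log (by exact_mod_cast hXpos) (by exact_mod_cast hj1.le)
      push_cast at h1 ⊢
      rw [Real.log_mul (by norm_num) (by positivity), Real.log_pow] at h1
      have h2 : Real.log 400 ≤ 9 := by
        rw [show (400 : ℝ) = 400 / 512 * 2 ^ 9 by norm_num, Real.log_mul (by norm_num) (by norm_num),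
          Real.log_pow]
        have h3 : Real.log (400 / 512) ≤ 0 := Real.log_nonpos (by norm_num) (by norm_num)
        have h4 := Real.log_two_lt_d9
        push_cast
        linarith
      have h3 : ((2 ^ (i + 1 + 1) : ℕ) : ℝ) * Real.log 2 ≤ 4 * 2 ^ i := by
        push_cast
        have h4 := Real.log_two_lt_d9
        have h5 : (0 : ℝ) < 2 ^ i := by positivity
        have h6 : (2 : ℝ) ^ (i + 1 + 1) = 4 * 2 ^ i := by rw [pow_succ, pow_succ]; ring
        rw [h6]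
        nlinarith
      have h4 : (16 : ℝ) ≤ 2 ^ i := by
        calc (16 : ℝ) = 2 ^ 4 := by norm_num
          _ ≤ 2 ^ i := pow_le_pow_right₀ (by norm_num) hi4
      have h5 : (2 : ℝ) ^ (i + 3) = 8 * 2 ^ i := by rw [pow_add]; ring
      rw [h5]
      linarith
    have hmain := hrom X hX0 (S i) hQ hQL K hK (hSdiff i hi4)
    calc c / K * X = c * X / K := by ring
      _ ≤ _ := hmain
      _ ≤ _ := by
        have hfin : {n : ℕ | n ≤ X ∧ ∃ p q : ℕ, p ∈ {a | ∃ i, 4 ≤ i ∧ a ∈ S i} ∧ q.Prime ∧ p < q ∧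
            p + q = 2 * n}.Finite := (Set.finite_Iic X).subset fun n hn => hn.1
        have h1 : (((Finset.Icc 1 X).filter (fun n => c * ((S i).card : ℝ) / Real.log X ≤
            (((S i).filter (fun q => q < n ∧ (2 * n - q).Prime)).card : ℝ)) : Finset ℕ) : Set ℕ) ⊆
            {n : ℕ | n ≤ X ∧ ∃ p q : ℕ, p ∈ {a | ∃ i, 4 ≤ i ∧ a ∈ S i} ∧ q.Prime ∧ p < q ∧
            p + q = 2 * n} := by
          intro n hn
          have hn := Finset.mem_filter.mp (Finset.mem_coe.mp hn)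
          have hnI := Finset.mem_Icc.mp hn.1
          refine ⟨hnI.2, ?_⟩
          have hlogX : 0 < Real.log X := Real.log_pos (by
            have : 1 < X := by omega
            exact_mod_cast this)
          have hpos : 0 < c * ((S i).card : ℝ) / Real.log X := by
            have : (0 : ℝ) < (S i).card := by linarith
            positivity
          have hcard : 0 < ((S i).filter (fun q => q < n ∧ (2 * n - q).Prime)).card := by
            have := hpos.trans_le hn.2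
            exact_mod_cast this
          obtain ⟨q, hq⟩ := Finset.card_pos.mp hcard
          have hq' := Finset.mem_filter.mp hq
          exact ⟨q, 2 * n - q, ⟨i, hi4, hq'.1⟩, hq'.2.2, by omega, by omega⟩
        have h2 := Set.ncard_le_ncard h1 hfin
        rw [Set.ncard_coe_finset] at h2
        exact_mod_cast h2

/-- The thin set, in terms of even numbers. -/
theorem thin_set' : ∃ A : Set ℕ, (∀ a ∈ A, a.Prime ∧ a ≠ 2) ∧
    (∀ x : ℕ, 2 ≤ x → ((A ∩ Set.Iic x).ncard : ℝ) ≤ 24 * Real.log x) ∧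
    ∃ c : ℝ, 0 < c ∧ ∃ X₀ : ℕ, ∀ X : ℕ, X₀ ≤ X →
      c * X ≤ ({m : ℕ | m ≤ X ∧ Even m ∧
        ∃ p q : ℕ, p ∈ A ∧ q.Prime ∧ q ≠ 2 ∧ p ≠ q ∧ m = p + q}.ncard : ℝ) := by
  obtain ⟨A, hA, hAcount, c, hc, X₀, h⟩ := thin_set
  refine ⟨A ∩ {a | a ≠ 2}, fun a ha => ⟨hA a ha.1, ha.2⟩, fun x hx => ?_, c / 4, by positivity,
    2 * X₀ + 2, fun X hX => ?_⟩
  · refine le_trans ?_ (hAcount x hx)
    have : ((A ∩ {a | a ≠ 2}) ∩ Set.Iic x).ncard ≤ (A ∩ Set.Iic x).ncard := by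
      apply Set.ncard_le_ncard
      · rintro a ⟨⟨h1, _⟩, h3⟩
        exact ⟨h1, h3⟩
      · exact (Set.finite_Iic x).subset fun a ha => ha.2
    exact_mod_cast this
  · have h1 := h (X / 2) (by omega)
    have h2 : {n : ℕ | n ≤ X / 2 ∧ ∃ p q : ℕ, p ∈ A ∧ q.Prime ∧ p < q ∧ p + q = 2 * n}.ncard ≤
        {m : ℕ | m ≤ X ∧ Even m ∧ ∃ p q : ℕ, p ∈ A ∩ {a | a ≠ 2} ∧ q.Prime ∧ q ≠ 2 ∧ p ≠ q ∧
          m = p + q}.ncard := by
      refine Set.ncard_le_ncard_of_injOn (fun n => 2 * n) ?_ ?_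
        ((Set.finite_Iic X).subset fun n hn => hn.1)
      · rintro n ⟨hn, p, q, hp, hq, hpq, hsum⟩
        have hp' := hA p hp
        have hp2 : p ≠ 2 := by
          rintro rfl
          rcases hq.eq_two_or_odd with h3 | h3
          · omega
          · omega
        have hq2 : q ≠ 2 := by
          have := hp'.two_le
          omega
        exact ⟨by omega, even_two_mul n, p, q, ⟨hp, hp2⟩, hq, hq2, by omega, hsum.symm⟩
      · intro a _ b _ hab
        have hab : 2 * a = 2 * b := hab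
        omega
    have h3 : (({n : ℕ | n ≤ X / 2 ∧ ∃ p q : ℕ, p ∈ A ∧ q.Prime ∧ p < q ∧ p + q = 2 * n}.ncard : ℕ) : ℝ)
        ≤ (({m : ℕ | m ≤ X ∧ Even m ∧ ∃ p q : ℕ, p ∈ A ∩ {a | a ≠ 2} ∧ q.Prime ∧ q ≠ 2 ∧ p ≠ q ∧
          m = p + q}.ncard : ℕ) : ℝ) := by exact_mod_cast h2
    refine le_trans ?_ (h1.trans h3)
    have h4 : (X : ℝ) ≤ 4 * ((X / 2 : ℕ) : ℝ) := by
      have : X ≤ 4 * (X / 2) := by omega
      exact_mod_cast this
    calc c / 4 * X ≤ c / 4 * (4 * ((X / 2 : ℕ) : ℝ)) := by gcongr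
      _ = c * ((X / 2 : ℕ) : ℝ) := by ring

end Pool.Agent.Lib.MP_61161c_nt
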